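import Mathlib

/-!
# Farkas' lemma and linear programming duality over the reals

Elementary proof by elimination of variables.
-/

set_option autoImplicit false

namespace Pool.Agent.Lib.MP_f25cb6_lc.Lp

/-- A number between two finite families. -/
private theorem exists_between_fin {I : Type} [Fintype I] (p q : I → Prop) (u v : I → ℝ)
    (h : ∀ i j, p i → q j → u i ≤ v j) :
    ∃ x : ℝ, (∀ i, p i → u i ≤ x) ∧ ∀ j, q j → x ≤ v j := by
  classical
  by_cases hp : (Finset.univ.filter p).Nonempty
  · obtain ⟨i, hi, hi2⟩ := Finset.exists_max_image _ u hp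
    rw [Finset.mem_filter] at hi
    refine ⟨u i, fun j hj => hi2 j ?_, fun j hj => h i j hi.2 hj⟩
    rw [Finset.mem_filter]
    exact ⟨Finset.mem_univ _, hj⟩
  · have hp' : ∀ i, ¬ p i := fun i hi => hp ⟨i, Finset.mem_filter.2 ⟨Finset.mem_univ _, hi⟩⟩
    by_cases hq : (Finset.univ.filter q).Nonempty
    · obtain ⟨i, hi, hi2⟩ := Finset.exists_min_image _ v hq
      refine ⟨v i, fun j hj => absurd hj (hp' j), fun j hj => hi2 j ?_⟩
      rw [Finset.mem_filter]
      exact ⟨Finset.mem_univ _, hj⟩
    · exact ⟨0, fun j hj => absurd hj (hp' j), fun j hj =>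
        absurd ⟨j, Finset.mem_filter.2 ⟨Finset.mem_univ _, hj⟩⟩ hq⟩

/-- Farkas' lemma. -/
theorem farkas_real (d : ℕ) : ∀ (I : Type) [Fintype I] (a : I → Fin d → ℝ) (b : I → ℝ),
    (∃ x : Fin d → ℝ, ∀ i, b i ≤ ∑ k, x k * a i k) ∨
    ∃ lam : I → ℝ, (∀ i, 0 ≤ lam i) ∧ (∀ k, ∑ i, lam i * a i k = 0) ∧
      0 < ∑ i, lam i * b i := by
  classical
  induction d with
  | zero =>
    intro I _ a b
    by_cases h : ∀ i, b i ≤ 0
    · exact Or.inl ⟨0, fun i => by simpa using h i⟩
    · push Not at h
      obtain ⟨i0, hi0⟩ := h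
      refine Or.inr ⟨fun i => if i = i0 then 1 else 0, fun i => ?_, fun k => k.elim0, ?_⟩
      · show (0 : ℝ) ≤ if i = i0 then 1 else 0
        split_ifs <;> norm_num
      simpa using hi0
  | succ d ih =>
    intro I _ a b
    -- the rows of the new system: `α (p, q) * row p + β (p, q) * row q`
    obtain ⟨α, hα⟩ : ∃ α : I × I → ℝ, ∀ s, α s = if 0 < a s.1 0 ∧ a s.2 0 < 0 then -a s.2 0 else
        if a s.1 0 = 0 ∧ s.1 = s.2 then 1 else 0 := ⟨_, fun _ => rfl⟩
    obtain ⟨β, hβ⟩ : ∃ β : I × I → ℝ, ∀ s, β s = if 0 < a s.1 0 ∧ a s.2 0 < 0 then a s.1 0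
        else 0 := ⟨_, fun _ => rfl⟩
    have hα0 : ∀ s, 0 ≤ α s := fun s => by
      rw [hα]
      split_ifs with h1 h2
      · linarith [h1.2]
      · norm_num
      · norm_num
    have hβ0 : ∀ s, 0 ≤ β s := fun s => by
      rw [hβ]
      split_ifs with h1
      · exact h1.1.le
      · norm_num
    have hαβ : ∀ s, α s * a s.1 0 + β s * a s.2 0 = 0 := fun s => by
      rw [hα, hβ]
      split_ifs with h1 h2
      · ring
      · rw [h2.1]
        ring
      · ring
    rcases ih (I × I) (fun s k => α s * a s.1 k.succ + β s * a s.2 k.succ)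
      (fun s => α s * b s.1 + β s * b s.2) with ⟨x, hx⟩ | ⟨lam, h0, h1, h2⟩
    · left
      obtain ⟨t, ht⟩ : ∃ t : I → ℝ, ∀ i, t i = b i - ∑ k, x k * a i k.succ := ⟨_, fun _ => rfl⟩
      have h3 : ∀ s, α s * t s.1 + β s * t s.2 ≤ 0 := fun s => by
        have h4 := hx s
        have h5 : ∑ k, x k * (α s * a s.1 k.succ + β s * a s.2 k.succ) =
            α s * ∑ k, x k * a s.1 k.succ + β s * ∑ k, x k * a s.2 k.succ := by
          rw [Finset.mul_sum, Finset.mul_sum, ← Finset.sum_add_distrib]
          exact Finset.sum_congr rfl fun k _ => by ring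
        rw [h5] at h4
        rw [ht, ht]
        linarith
      obtain ⟨x0, hx1, hx2⟩ := exists_between_fin (fun i => 0 < a i 0) (fun i => a i 0 < 0)
        (fun i => t i / a i 0) (fun i => t i / a i 0) (fun i j hi hj => by
          have h4 := h3 (i, j)
          rw [hα, hβ, if_pos ⟨hi, hj⟩, if_pos ⟨hi, hj⟩] at h4
          have h6 : t i / a i 0 - t j / a j 0 = (-a j 0 * t i + a i 0 * t j) /
              (a i 0 * (-a j 0)) := by
            have h7 : a i 0 ≠ 0 := hi.ne'
            have h8 : a j 0 ≠ 0 := hj.ne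
            field_simp
            ring
          have h9 : (-a j 0 * t i + a i 0 * t j) / (a i 0 * (-a j 0)) ≤ 0 :=
            div_nonpos_of_nonpos_of_nonneg h4 (mul_nonneg hi.le (by linarith))
          linarith)
      refine ⟨Fin.cons x0 x, fun i => ?_⟩
      rw [Fin.sum_univ_succ]
      simp only [Fin.cons_zero, Fin.cons_succ]
      have h4 : t i ≤ x0 * a i 0 := by
        rcases lt_trichotomy (a i 0) 0 with h | h | h
        · have h5 := hx2 i h
          rw [le_div_iff_of_neg h] at h5
          exact h5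
        · have h5 := h3 (i, i)
          rw [hα, hβ, if_neg (by rintro ⟨h6, -⟩; exact absurd h6 (by rw [h]; exact lt_irrefl 0)),
            if_pos ⟨h, rfl⟩, if_neg (by
              rintro ⟨h6, -⟩
              exact absurd h6 (by rw [h]; exact lt_irrefl 0))] at h5
          rw [h]
          linarith
        · have h5 := hx1 i h
          rw [div_le_iff₀ h] at h5
          exact h5
      have h5 := ht i
      linarith
    · right
      have h3 : ∀ f : I → ℝ, ∑ i, (∑ q, lam (i, q) * α (i, q) + ∑ p, lam (p, i) * β (p, i)) * f i =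
          ∑ s, lam s * (α s * f s.1 + β s * f s.2) := by
        intro f
        rw [Fintype.sum_prod_type]
        have h4 : ∀ p, ∑ q, lam (p, q) * (α (p, q) * f p + β (p, q) * f q) =
            (∑ q, lam (p, q) * α (p, q)) * f p + ∑ q, lam (p, q) * β (p, q) * f q := fun p => by
          rw [Finset.sum_mul, ← Finset.sum_add_distrib]
          exact Finset.sum_congr rfl fun q _ => by ring
        rw [Finset.sum_congr rfl fun p _ => h4 p, Finset.sum_add_distrib, Finset.sum_comm,
          ← Finset.sum_add_distrib]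
        refine Finset.sum_congr rfl fun i _ => ?_
        rw [add_mul, Finset.sum_mul (f := fun p => lam (p, i) * β (p, i))]
      refine ⟨fun i => ∑ q, lam (i, q) * α (i, q) + ∑ p, lam (p, i) * β (p, i), fun i => ?_,
        fun k => ?_, ?_⟩
      · exact add_nonneg (Finset.sum_nonneg fun q _ => mul_nonneg (h0 _) (hα0 _))
          (Finset.sum_nonneg fun q _ => mul_nonneg (h0 _) (hβ0 _))
      · rw [h3 fun i => a i k]
        refine Fin.cases ?_ (fun k => ?_) k
        · exact Finset.sum_eq_zero fun s _ => by rw [hαβ s, mul_zero]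
        · exact h1 k
      · rw [h3 b]
        exact h2


/-- Farkas' lemma with an arbitrary finite set of unknowns. -/
theorem farkas_fin (K I : Type) [Fintype K] [Fintype I] (a : I → K → ℝ) (b : I → ℝ) :
    (∃ x : K → ℝ, ∀ i, b i ≤ ∑ k, x k * a i k) ∨
    ∃ lam : I → ℝ, (∀ i, 0 ≤ lam i) ∧ (∀ k, ∑ i, lam i * a i k = 0) ∧
      0 < ∑ i, lam i * b i := by
  have e := Fintype.equivFin K
  rcases farkas_real (Fintype.card K) I (fun i k => a i (e.symm k)) b with ⟨x, hx⟩ | ⟨lam, h0, h1, h2⟩
  · refine Or.inl ⟨fun k => x (e k), fun i => (hx i).trans (le_of_eq ?_)⟩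
    refine (Fintype.sum_equiv e _ _ fun k => ?_).symm
    rw [Equiv.symm_apply_apply]
  · refine Or.inr ⟨lam, h0, fun k => ?_, h2⟩
    have := h1 (e k)
    rwa [Equiv.symm_apply_apply] at this

/-- **Linear programming duality.** If the linear function `c` is at most `β` on the nonempty
polyhedron given by the inequalities `A z ≤ e` and the equations `B z = g`, then this follows from
a combination of them with nonnegative coefficients for the inequalities. -/
theorem lp_dual {V K L : Type} [Fintype V] [Fintype K] [Fintype L] (A : K → V → ℝ) (e : K → ℝ)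
    (B : L → V → ℝ) (g : L → ℝ) (c : V → ℝ) (β : ℝ)
    (hne : ∃ z : V → ℝ, (∀ k, ∑ v, A k v * z v ≤ e k) ∧ ∀ k, ∑ v, B k v * z v = g k)
    (hval : ∀ z : V → ℝ, (∀ k, ∑ v, A k v * z v ≤ e k) → (∀ k, ∑ v, B k v * z v = g k) →
      ∑ v, c v * z v ≤ β) :
    ∃ (lam : K → ℝ) (mu : L → ℝ), (∀ k, 0 ≤ lam k) ∧
      (∀ v, c v = ∑ k, lam k * A k v + ∑ k, mu k * B k v) ∧
      ∑ k, lam k * e k + ∑ k, mu k * g k ≤ β := by
  classical
  rcases farkas_fin (K ⊕ L) (K ⊕ (V ⊕ (V ⊕ Unit)))
    (Sum.elim (fun k => Sum.elim (fun k' => if k' = k then 1 else 0) (fun _ => 0))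
      (Sum.elim (fun v => Sum.elim (fun k => A k v) (fun k => B k v))
        (Sum.elim (fun v => Sum.elim (fun k => -A k v) (fun k => -B k v))
          (fun _ => Sum.elim (fun k => -e k) (fun k => -g k)))))
    (Sum.elim (fun _ => 0) (Sum.elim (fun v => c v) (Sum.elim (fun v => -c v) (fun _ => -β))))
    with ⟨x, hx⟩ | ⟨lam, h0, h1, h2⟩
  · refine ⟨fun k => x (Sum.inl k), fun k => x (Sum.inr k), fun k => ?_, fun v => ?_, ?_⟩
    · have := hx (Sum.inl k)
      simpa [Fintype.sum_sum_type] using this
    · have h3 := hx (Sum.inr (Sum.inl v))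
      have h4 := hx (Sum.inr (Sum.inr (Sum.inl v)))
      simp only [Fintype.sum_sum_type, Sum.elim_inl, Sum.elim_inr, mul_neg, Finset.sum_neg_distrib] at h3 h4
      linarith
    · have h3 := hx (Sum.inr (Sum.inr (Sum.inr ())))
      simp only [Fintype.sum_sum_type, Sum.elim_inl, Sum.elim_inr, mul_neg, Finset.sum_neg_distrib] at h3
      linarith
  · exfalso
    obtain ⟨z, hz⟩ : ∃ z : V → ℝ, ∀ v, z v = lam (Sum.inr (Sum.inl v)) - lam (Sum.inr (Sum.inr (Sum.inl v))) :=
      ⟨_, fun _ => rfl⟩
    obtain ⟨t, ht⟩ : ∃ t : ℝ, t = lam (Sum.inr (Sum.inr (Sum.inr ()))) := ⟨_, rfl⟩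
    have ht0 : 0 ≤ t := ht ▸ h0 _
    have hA : ∀ k, ∑ v, A k v * z v ≤ t * e k := by
      intro k
      have h3 := h1 (Sum.inl k)
      have h4 := h0 (Sum.inl k)
      simp only [Fintype.sum_sum_type, Sum.elim_inl, Sum.elim_inr, mul_neg, Finset.sum_neg_distrib,
        mul_ite, mul_one, mul_zero, Finset.sum_ite_eq, Finset.mem_univ, if_true, Finset.univ_unique,
        Finset.sum_singleton] at h3
      have h5 : ∑ v, A k v * z v = ∑ v, lam (Sum.inr (Sum.inl v)) * A k v -
          ∑ v, lam (Sum.inr (Sum.inr (Sum.inl v))) * A k v := by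
        rw [← Finset.sum_sub_distrib]
        refine Finset.sum_congr rfl fun v _ => ?_
        rw [hz]
        ring
      rw [h5, ht]
      linarith
    have hB : ∀ k, ∑ v, B k v * z v = t * g k := by
      intro k
      have h3 := h1 (Sum.inr k)
      simp only [Fintype.sum_sum_type, Sum.elim_inl, Sum.elim_inr, mul_neg, Finset.sum_neg_distrib,
        mul_zero, Finset.sum_const_zero, Finset.univ_unique, Finset.sum_singleton] at h3
      have h5 : ∑ v, B k v * z v = ∑ v, lam (Sum.inr (Sum.inl v)) * B k v -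
          ∑ v, lam (Sum.inr (Sum.inr (Sum.inl v))) * B k v := by
        rw [← Finset.sum_sub_distrib]
        refine Finset.sum_congr rfl fun v _ => ?_
        rw [hz]
        ring
      rw [h5, ht]
      linarith
    have hc : t * β < ∑ v, c v * z v := by
      simp only [Fintype.sum_sum_type, Sum.elim_inl, Sum.elim_inr, mul_neg, Finset.sum_neg_distrib,
        mul_zero, Finset.sum_const_zero, Finset.univ_unique, Finset.sum_singleton] at h2
      have h5 : ∑ v, c v * z v = ∑ v, lam (Sum.inr (Sum.inl v)) * c v -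
          ∑ v, lam (Sum.inr (Sum.inr (Sum.inl v))) * c v := by
        rw [← Finset.sum_sub_distrib]
        refine Finset.sum_congr rfl fun v _ => ?_
        rw [hz]
        ring
      rw [h5, ht]
      linarith
    rcases ht0.lt_or_eq with htp | hte
    · have h3 := hval (fun v => z v / t) (fun k => ?_) (fun k => ?_)
      · have h4 : ∑ v, c v * (z v / t) = (∑ v, c v * z v) / t := by
          rw [Finset.sum_div]
          exact Finset.sum_congr rfl fun v _ => by ring
        rw [h4, div_le_iff₀ htp] at h3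
        linarith
      · have h4 : ∑ v, A k v * (z v / t) = (∑ v, A k v * z v) / t := by
          rw [Finset.sum_div]
          exact Finset.sum_congr rfl fun v _ => by ring
        rw [h4, div_le_iff₀ htp]
        linarith [hA k]
      · have h4 : ∑ v, B k v * (z v / t) = (∑ v, B k v * z v) / t := by
          rw [Finset.sum_div]
          exact Finset.sum_congr rfl fun v _ => by ring
        rw [h4, hB k]
        field_simp
    · obtain ⟨z0, hz1, hz2⟩ := hne
      have hc0 : 0 < ∑ v, c v * z v := by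
        rw [← hte, zero_mul] at hc
        exact hc
      obtain ⟨s, hs⟩ : ∃ s : ℝ, s = (|β - ∑ v, c v * z0 v| + 1) / ∑ v, c v * z v := ⟨_, rfl⟩
      have hs0 : 0 ≤ s := by
        rw [hs]
        positivity
      have h3 := hval (fun v => z0 v + s * z v) (fun k => ?_) (fun k => ?_)
      · have h4 : ∑ v, c v * (z0 v + s * z v) = ∑ v, c v * z0 v + s * ∑ v, c v * z v := by
          rw [Finset.mul_sum, ← Finset.sum_add_distrib]
          exact Finset.sum_congr rfl fun v _ => by ring
        rw [h4, hs, div_mul_cancel₀ _ hc0.ne'] at h3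
        linarith [le_abs_self (β - ∑ v, c v * z0 v)]
      · have h4 : ∑ v, A k v * (z0 v + s * z v) = ∑ v, A k v * z0 v + s * ∑ v, A k v * z v := by
          rw [Finset.mul_sum, ← Finset.sum_add_distrib]
          exact Finset.sum_congr rfl fun v _ => by ring
        rw [h4]
        have h5 := hA k
        rw [← hte, zero_mul] at h5
        have h6 := hz1 k
        have h7 : s * ∑ v, A k v * z v ≤ 0 := mul_nonpos_of_nonneg_of_nonpos hs0 h5
        linarith
      · have h4 : ∑ v, B k v * (z0 v + s * z v) = ∑ v, B k v * z0 v + s * ∑ v, B k v * z v := by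
          rw [Finset.mul_sum, ← Finset.sum_add_distrib]
          exact Finset.sum_congr rfl fun v _ => by ring
        rw [h4, hz2 k, hB k, ← hte]
        ring

end Pool.Agent.Lib.MP_f25cb6_lc.Lp
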