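import Mathlib

/-!
# The unique disjointness matrix

A matrix on the pairs of subsets of a set with `p` elements, zero for the pairs with exactly one
common element and positive for the disjoint pairs, has no factorisation into nonnegative matrices
with fewer than `(3/2)^p` terms (Kaibel and Weltge).
-/

set_option autoImplicit false

namespace Pool.Agent.Lib.MP_f25cb6_lc.Lp

open Finset

/-- the disjoint pairs -/
private def dj {α : Type} [DecidableEq α] (X Y : Finset (Finset α)) : Finset (Finset α × Finset α) :=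
  (X ×ˢ Y).filter (fun p => Disjoint p.1 p.2)

private theorem mem_dj {α : Type} [DecidableEq α] {X Y : Finset (Finset α)} {p : Finset α × Finset α} :
    p ∈ dj X Y ↔ p.1 ∈ X ∧ p.2 ∈ Y ∧ Disjoint p.1 p.2 := by
  unfold dj
  rw [mem_filter, mem_product, and_assoc]

/-- A rectangle without pairs with exactly one common element has at most `2 ^ |U|` disjoint
pairs. -/
private theorem dj_le {α : Type} [DecidableEq α] (U : Finset α) : ∀ (X Y : Finset (Finset α)),
    (∀ a ∈ X, a ⊆ U) → (∀ b ∈ Y, b ⊆ U) → (∀ a ∈ X, ∀ b ∈ Y, (a ∩ b).card ≠ 1) →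
    (dj X Y).card ≤ 2 ^ U.card := by
  induction U using Finset.induction_on with
  | empty =>
    intro X Y hX hY _
    rw [card_empty, pow_zero, card_le_one]
    intro p hp q hq
    rw [mem_dj] at hp hq
    exact Prod.ext ((subset_empty.1 (hX _ hp.1)).trans (subset_empty.1 (hX _ hq.1)).symm)
      ((subset_empty.1 (hY _ hp.2.1)).trans (subset_empty.1 (hY _ hq.2.1)).symm)
  | insert x U hx ih =>
    intro X Y hX hY hXY
    obtain ⟨X0, hX0⟩ : ∃ X0, X0 = X.filter (fun a => x ∉ a) := ⟨_, rfl⟩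
    obtain ⟨X1, hX1⟩ : ∃ X1, X1 = (X.filter (fun a => x ∈ a)).image (fun a => a.erase x) := ⟨_, rfl⟩
    obtain ⟨Y0, hY0⟩ : ∃ Y0, Y0 = Y.filter (fun a => x ∉ a) := ⟨_, rfl⟩
    obtain ⟨Y1, hY1⟩ : ∃ Y1, Y1 = (Y.filter (fun a => x ∈ a)).image (fun a => a.erase x) := ⟨_, rfl⟩
    have mX0 : ∀ a, a ∈ X0 ↔ a ∈ X ∧ x ∉ a := fun a => by rw [hX0, mem_filter]
    have mY0 : ∀ a, a ∈ Y0 ↔ a ∈ Y ∧ x ∉ a := fun a => by rw [hY0, mem_filter]
    have mX1 : ∀ a, a ∈ X1 ↔ x ∉ a ∧ insert x a ∈ X := by
      intro a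
      rw [hX1, mem_image]
      constructor
      · rintro ⟨b, hb, rfl⟩
        rw [mem_filter] at hb
        exact ⟨notMem_erase x b, by rw [insert_erase hb.2]; exact hb.1⟩
      · rintro ⟨h1, h2⟩
        exact ⟨insert x a, mem_filter.2 ⟨h2, mem_insert_self x a⟩, erase_insert h1⟩
    have mY1 : ∀ a, a ∈ Y1 ↔ x ∉ a ∧ insert x a ∈ Y := by
      intro a
      rw [hY1, mem_image]
      constructor
      · rintro ⟨b, hb, rfl⟩
        rw [mem_filter] at hb
        exact ⟨notMem_erase x b, by rw [insert_erase hb.2]; exact hb.1⟩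
      · rintro ⟨h1, h2⟩
        exact ⟨insert x a, mem_filter.2 ⟨h2, mem_insert_self x a⟩, erase_insert h1⟩
    have sub : ∀ {a : Finset α}, x ∉ a → a ⊆ insert x U → a ⊆ U := by
      intro a h1 h2 y hy
      rcases mem_insert.1 (h2 hy) with h | h
      · exact absurd (h ▸ hy) h1
      · exact h
    have sX0 : ∀ a ∈ X0, a ⊆ U := fun a ha => sub ((mX0 a).1 ha).2 (hX a ((mX0 a).1 ha).1)
    have sY0 : ∀ a ∈ Y0, a ⊆ U := fun a ha => sub ((mY0 a).1 ha).2 (hY a ((mY0 a).1 ha).1)
    have sX1 : ∀ a ∈ X1, a ⊆ U := fun a ha =>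
      sub ((mX1 a).1 ha).1 ((subset_insert x a).trans (hX _ ((mX1 a).1 ha).2))
    have sY1 : ∀ a ∈ Y1, a ⊆ U := fun a ha =>
      sub ((mY1 a).1 ha).1 ((subset_insert x a).trans (hY _ ((mY1 a).1 ha).2))
    have int10 : ∀ {a b : Finset α}, x ∉ b → insert x a ∩ b = a ∩ b := by
      intro a b hb
      rw [insert_inter_of_notMem hb]
    have int01 : ∀ {a b : Finset α}, x ∉ a → a ∩ insert x b = a ∩ b := by
      intro a b ha
      rw [inter_insert_of_notMem ha]
    -- no disjoint pairs in `X1 × Y1`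
    have h11 : ∀ a ∈ X1, ∀ b ∈ Y1, ¬ Disjoint a b := by
      intro a ha b hb hd
      rw [mX1] at ha
      rw [mY1] at hb
      refine hXY _ ha.2 _ hb.2 ?_
      have : insert x a ∩ insert x b = {x} := by
        rw [← insert_inter_distrib, disjoint_iff_inter_eq_empty.1 hd]
        rfl
      rw [this, card_singleton]
    have c1 := ih (X0 ∪ X1) Y0
      (fun a ha => (mem_union.1 ha).elim (sX0 a) (sX1 a)) sY0 (fun a ha b hb => by
        rcases mem_union.1 ha with h | h
        · exact hXY a ((mX0 a).1 h).1 b ((mY0 b).1 hb).1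
        · have := hXY _ ((mX1 a).1 h).2 b ((mY0 b).1 hb).1
          rwa [int10 ((mY0 b).1 hb).2] at this)
    have c2 := ih X0 (Y0 ∪ Y1) sX0
      (fun a ha => (mem_union.1 ha).elim (sY0 a) (sY1 a)) (fun a ha b hb => by
        rcases mem_union.1 hb with h | h
        · exact hXY a ((mX0 a).1 ha).1 b ((mY0 b).1 h).1
        · have := hXY a ((mX0 a).1 ha).1 _ ((mY1 b).1 h).2
          rwa [int01 ((mX0 a).1 ha).2] at this)
    have hinj : (dj X Y).card ≤ ((dj (X0 ∪ X1) Y0).disjSum (dj X0 (Y0 ∪ Y1))).card := by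
      classical
      obtain ⟨f, hf⟩ : ∃ f : Finset α × Finset α → (Finset α × Finset α) ⊕ (Finset α × Finset α),
          ∀ p, f p = if x ∈ p.1 then Sum.inl (p.1.erase x, p.2) else
            if x ∈ p.2 then Sum.inr (p.1, p.2.erase x) else
              if p.1 ∈ X1 then Sum.inr p else Sum.inl p := ⟨_, fun _ => rfl⟩
      refine card_le_card_of_injOn f ?_ ?_
      · intro p hp
        have hp' := mem_dj.1 (mem_coe.1 hp)
        rw [mem_coe, hf]
        split_ifs with h1 h2 h3
        · refine inl_mem_disjSum.2 (mem_dj.2 ⟨mem_union_right _ ((mX1 _).2 ⟨notMem_erase _ _, ?_⟩), ?_, ?_⟩)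
          · show insert x (p.1.erase x) ∈ X
            rw [insert_erase h1]
            exact hp'.1
          · exact (mY0 _).2 ⟨hp'.2.1, fun h => (disjoint_left.1 hp'.2.2 h1 h)⟩
          · exact disjoint_of_subset_left (erase_subset _ _) hp'.2.2
        · refine inr_mem_disjSum.2 (mem_dj.2 ⟨(mX0 _).2 ⟨hp'.1, h1⟩, mem_union_right _ ((mY1 _).2
            ⟨notMem_erase _ _, ?_⟩), ?_⟩)
          · show insert x (p.2.erase x) ∈ Y
            rw [insert_erase h2]
            exact hp'.2.1
          · exact disjoint_of_subset_right (erase_subset _ _) hp'.2.2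
        · exact inr_mem_disjSum.2 (mem_dj.2 ⟨(mX0 _).2 ⟨hp'.1, h1⟩,
            mem_union_left _ ((mY0 _).2 ⟨hp'.2.1, h2⟩), hp'.2.2⟩)
        · exact inl_mem_disjSum.2 (mem_dj.2 ⟨mem_union_left _ ((mX0 _).2 ⟨hp'.1, h1⟩),
            (mY0 _).2 ⟨hp'.2.1, h2⟩, hp'.2.2⟩)
      · obtain ⟨g, hg⟩ : ∃ g : (Finset α × Finset α) ⊕ (Finset α × Finset α) → Finset α × Finset α,
            ∀ y, g y = Sum.elim (fun p => if p.1 ∈ X1 then (insert x p.1, p.2) else p)
              (fun p => if p.2 ∈ Y1 then (p.1, insert x p.2) else p) y := ⟨_, fun _ => rfl⟩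
        have hgf : Set.LeftInvOn g f (dj X Y : Set (Finset α × Finset α)) := by
          intro p hp
          have hp' := mem_dj.1 (mem_coe.1 hp)
          rw [hg, hf]
          by_cases h1 : x ∈ p.1
          · have h2 : p.1.erase x ∈ X1 := (mX1 _).2 ⟨notMem_erase _ _, by rw [insert_erase h1]; exact hp'.1⟩
            rw [if_pos h1, Sum.elim_inl]
            show (if p.1.erase x ∈ X1 then (insert x (p.1.erase x), p.2) else (p.1.erase x, p.2)) = p
            rw [if_pos h2, insert_erase h1]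
          · rw [if_neg h1]
            by_cases h2 : x ∈ p.2
            · have h3 : p.2.erase x ∈ Y1 := (mY1 _).2 ⟨notMem_erase _ _, by rw [insert_erase h2]; exact hp'.2.1⟩
              rw [if_pos h2, Sum.elim_inr]
              show (if p.2.erase x ∈ Y1 then (p.1, insert x (p.2.erase x)) else (p.1, p.2.erase x)) = p
              rw [if_pos h3, insert_erase h2]
            · rw [if_neg h2]
              by_cases h3 : p.1 ∈ X1
              · rw [if_pos h3, Sum.elim_inr, if_neg fun h4 => h11 _ h3 _ h4 hp'.2.2]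
              · rw [if_neg h3, Sum.elim_inl, if_neg h3]
        exact hgf.injOn
    rw [card_disjSum] at hinj
    rw [card_insert_of_notMem hx, pow_succ]
    omega

/-- the number of all disjoint pairs -/
private theorem card_dj_univ {α : Type} [DecidableEq α] [Fintype α] :
    (dj (univ : Finset (Finset α)) univ).card = 3 ^ Fintype.card α := by
  have h1 : (dj (univ : Finset (Finset α)) univ).card =
      ∑ a : Finset α, 2 ^ (Fintype.card α - a.card) := by
    unfold dj
    rw [card_filter, sum_product]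
    refine sum_congr rfl fun a _ => ?_
    rw [← card_filter]
    have h2 : (univ.filter (fun b : Finset α => Disjoint a b)) = aᶜ.powerset := by
      ext b
      rw [mem_filter, mem_powerset]
      constructor
      · intro h y hy
        exact mem_compl.2 fun h3 => disjoint_left.1 h.2 h3 hy
      · intro h
        exact ⟨mem_univ _, disjoint_left.2 fun y h3 h4 => mem_compl.1 (h h4) h3⟩
    rw [h2, card_powerset, card_compl]
  rw [h1]
  have h3 := Finset.sum_pow_mul_eq_add_pow (1 : ℕ) 2 (univ : Finset α)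
  rw [powerset_univ] at h3
  simp only [one_pow, one_mul, card_univ] at h3
  rw [h3]

/-- **Factorisations of the unique disjointness matrix** (Kaibel and Weltge). -/
theorem nonneg_factor {α K : Type} [DecidableEq α] [Fintype α] [Fintype K]
    (F : Finset α → K → ℝ) (G : K → Finset α → ℝ) (hF : ∀ a k, 0 ≤ F a k) (hG : ∀ k b, 0 ≤ G k b)
    (h1 : ∀ a b, (a ∩ b).card = 1 → ∑ k, F a k * G k b = 0)
    (h0 : ∀ a b, Disjoint a b → 0 < ∑ k, F a k * G k b) :
    3 ^ Fintype.card α ≤ Fintype.card K * 2 ^ Fintype.card α := by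
  classical
  obtain ⟨X, hX⟩ : ∃ X : K → Finset (Finset α), ∀ k, X k = univ.filter (fun a => 0 < F a k) :=
    ⟨_, fun _ => rfl⟩
  obtain ⟨Y, hY⟩ : ∃ Y : K → Finset (Finset α), ∀ k, Y k = univ.filter (fun b => 0 < G k b) :=
    ⟨_, fun _ => rfl⟩
  have hsub : dj (univ : Finset (Finset α)) univ ⊆ univ.biUnion fun k => dj (X k) (Y k) := by
    intro p hp
    rw [mem_dj] at hp
    have h2 := h0 _ _ hp.2.2
    obtain ⟨k, _, hk⟩ := exists_lt_of_sum_lt (s := (univ : Finset K)) (f := fun _ => (0 : ℝ))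
      (g := fun k => F p.1 k * G k p.2) (by rw [sum_const_zero]; exact h2)
    refine mem_biUnion.2 ⟨k, mem_univ _, mem_dj.2 ⟨?_, ?_, hp.2.2⟩⟩
    · rw [hX, mem_filter]
      refine ⟨mem_univ _, lt_of_le_of_ne (hF _ _) fun h => ?_⟩
      rw [← h, zero_mul] at hk
      exact lt_irrefl _ hk
    · rw [hY, mem_filter]
      refine ⟨mem_univ _, lt_of_le_of_ne (hG _ _) fun h => ?_⟩
      rw [← h, mul_zero] at hk
      exact lt_irrefl _ hk
  have hk : ∀ k, (dj (X k) (Y k)).card ≤ 2 ^ Fintype.card α := by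
    intro k
    have := dj_le (univ : Finset α) (X k) (Y k) (fun a _ => subset_univ a) (fun b _ => subset_univ b)
      (fun a ha b hb hab => by
        rw [hX, mem_filter] at ha
        rw [hY, mem_filter] at hb
        have h3 := h1 a b hab
        have h4 := (sum_eq_zero_iff_of_nonneg fun k _ => mul_nonneg (hF a k) (hG k b)).1 h3 k (mem_univ _)
        exact (mul_pos ha.2 hb.2).ne' h4)
    rwa [card_univ] at this
  calc 3 ^ Fintype.card α = (dj (univ : Finset (Finset α)) univ).card := card_dj_univ.symm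
    _ ≤ (univ.biUnion fun k => dj (X k) (Y k)).card := card_le_card hsub
    _ ≤ ∑ k, (dj (X k) (Y k)).card := card_biUnion_le
    _ ≤ ∑ _k : K, 2 ^ Fintype.card α := sum_le_sum fun k _ => hk k
    _ = Fintype.card K * 2 ^ Fintype.card α := by rw [sum_const, card_univ, smul_eq_mul]

end Pool.Agent.Lib.MP_f25cb6_lc.Lp
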