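import Pool.Agent.Lib.MP_f25cb6_lc.Lp.Defs
import Pool.Agent.Lib.MP_f25cb6_lc.Lp.Farkas
import Pool.Agent.Lib.MP_f25cb6_lc.Lp.KW

/-!
# Lower bounds from the unique disjointness matrix

If the unique disjointness matrix is a matrix of slacks of feasible sets of jobs, then linear
programs and circuits for the system are large.
-/

set_option autoImplicit false

namespace Pool.Agent.Lib.MP_f25cb6_lc.Lp

open Finset

/-- The slacks `β a - ∑ j ∈ S b, w a j` contain the unique disjointness matrix. -/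
structure Hard {m : ℕ} {J : Type} (I : Jobs m J) (W : ℕ) (α : Type) [DecidableEq α] where
  S : Finset α → Finset J
  w : Finset α → J → ℕ
  β : Finset α → ℕ
  small : ∀ a j, w a j ≤ W
  feas : ∀ b, Feasible I (S b)
  maxl : ∀ b T, Feasible I T → S b ⊆ T → T = S b
  bound : ∀ a T, Feasible I T → ∑ j ∈ T, w a j ≤ β a
  one : ∀ a b, (a ∩ b).card = 1 → ∑ j ∈ S b, w a j = β a
  zero : ∀ a b, Disjoint a b → ∑ j ∈ S b, w a j < β a

section

variable {m : ℕ} {J : Type} [Fintype J] [DecidableEq J] {I : Jobs m J}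

omit [Fintype J] in
private theorem sum_ite_mem' (S T : Finset J) (t : ℕ) :
    ∑ j ∈ T, (if j ∈ S then t else 0) = t * (T ∩ S).card := by
  rw [← sum_filter, sum_const, smul_eq_mul, mul_comm, filter_mem_eq_inter]

private theorem opt_single (j : J) : opt I (fun i => if i = j then 1 else 0) ≤ 1 := by
  refine opt_le fun S _ => ?_
  rw [sum_ite_eq']
  split_ifs <;> omega

private theorem opt_ind {S : Finset J} (hS : Feasible I S) (t : ℕ) :
    opt I (fun i => if i ∈ S then t else 0) = t * S.card := by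
  refine le_antisymm (opt_le fun T _ => ?_) ?_
  · rw [sum_ite_mem']
    exact Nat.mul_le_mul_left t (card_le_card inter_subset_right)
  · have := le_opt hS (fun i => if i ∈ S then t else 0)
    rwa [sum_ite_mem', inter_self] at this

omit [Fintype J] in
private theorem card_inter_lt {S T : Finset J} (h : ¬ S ⊆ T) : (T ∩ S).card + 1 ≤ S.card := by
  have h1 : T ∩ S ⊂ S := by
    refine ssubset_of_subset_of_ne inter_subset_right fun h2 => h ?_
    rw [← h2]
    exact inter_subset_left
  exact card_lt_card h1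

private theorem opt_add {S : Finset J} (hm : ∀ T, Feasible I T → S ⊆ T → T = S) {j : J} (hj : j ∉ S) :
    opt I (fun i => (if i ∈ S then 1 else 0) + if i = j then 1 else 0) ≤ S.card := by
  refine opt_le fun T hT => ?_
  rw [sum_add_distrib, sum_ite_mem', one_mul, sum_ite_eq']
  by_cases h : S ⊆ T
  · rw [hm T hT h, if_neg hj, inter_self, add_zero]
  · have := card_inter_lt h
    split_ifs <;> omega

private theorem opt_big {S : Finset J} (hS : Feasible I S) (hm : ∀ T, Feasible I T → S ⊆ T → T = S) :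
    opt I (fun i => (if i ∈ S then Fintype.card J else 0) + 1) = (Fintype.card J + 1) * S.card := by
  refine le_antisymm (opt_le fun T hT => ?_) ?_
  · rw [sum_add_distrib, sum_ite_mem', sum_const, smul_eq_mul, mul_one]
    by_cases h : S ⊆ T
    · rw [hm T hT h, inter_self]
      exact le_of_eq (by ring)
    · have h1 := card_inter_lt h
      have h2 : T.card ≤ Fintype.card J := card_le_univ T
      have h3 : Fintype.card J * ((T ∩ S).card + 1) ≤ Fintype.card J * S.card :=
        Nat.mul_le_mul_left _ h1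
      have h4 : 0 ≤ S.card := Nat.zero_le _
      nlinarith
  · have := le_opt hS (fun i => (if i ∈ S then Fintype.card J else 0) + 1)
    rw [sum_add_distrib, sum_ite_mem', inter_self, sum_const, smul_eq_mul, mul_one] at this
    linarith [this, add_mul (Fintype.card J) 1 S.card]

/-- sums with the weights of this file -/
private theorem sum_ind (S : Finset J) (x : J → ℝ) :
    ∑ j, (if j ∈ S then (1 : ℝ) else 0) * x j = ∑ j ∈ S, x j := by
  simp only [ite_mul, one_mul, zero_mul]
  rw [← sum_filter]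
  congr 1
  ext j
  simp

private theorem sum_single (j : J) (x : J → ℝ) : ∑ i, (if i = j then (1 : ℝ) else 0) * x i = x j := by
  simp

private theorem sum_w_ind (S : Finset J) (w : J → ℕ) :
    ∑ j, (w j : ℝ) * (if j ∈ S then 1 else 0) = ((∑ j ∈ S, w j : ℕ) : ℝ) := by
  push_cast
  simp only [mul_ite, mul_one, mul_zero]
  rw [← sum_filter]
  congr 1
  ext j
  simp

omit [Fintype J] in
/-- from bounds for the weights `e_j`, `1_S + e_j` and the value for `1_S`: the point is `1_S`. -/
private theorem eq_ind {S : Finset J} {x : J → ℝ} (h1 : ∀ j, x j ≤ 1) (h2 : ∑ j ∈ S, x j = S.card)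
    (h3 : ∀ j, j ∉ S → ∑ i ∈ S, x i + x j ≤ S.card) (h4 : ∀ j, j ∉ S → 0 ≤ x j) :
    x = fun j => if j ∈ S then 1 else 0 := by
  funext j
  by_cases hj : j ∈ S
  · rw [if_pos hj]
    by_contra hne
    have h5 : x j < 1 := lt_of_le_of_ne (h1 j) hne
    have h6 : ∑ i ∈ S, x i < ∑ _i ∈ S, (1 : ℝ) := sum_lt_sum (fun i _ => h1 i) ⟨j, hj, h5⟩
    rw [h2, sum_const, nsmul_eq_mul, mul_one] at h6
    exact lt_irrefl _ h6
  · rw [if_neg hj]
    have h5 := h3 j hj
    rw [h2] at h5
    linarith [h4 j hj]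

private theorem lp_point {W r : ℕ} {Q : LP J r} (hQ : Q.Solves I W) (hW : Fintype.card J + 1 ≤ W)
    (hJ : 1 ≤ Fintype.card J) {S : Finset J} (hS : Feasible I S)
    (hm : ∀ T, Feasible I T → S ⊆ T → T = S) :
    ∃ y, Q.Sat (fun j => if j ∈ S then 1 else 0) y := by
  obtain ⟨⟨x, y, hxy, hv⟩, -⟩ := hQ (fun i => (if i ∈ S then Fintype.card J else 0) + 1) (fun i => by
    show (if i ∈ S then Fintype.card J else 0) + 1 ≤ W
    split_ifs <;> omega)
  rw [opt_big hS hm] at hv
  have hup : ∀ w : J → ℕ, (∀ j, w j ≤ W) → ∑ j, (w j : ℝ) * x j ≤ opt I w :=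
    fun w hw => (hQ w hw).2 ⟨x, y, hxy, rfl⟩
  have h1 : ∀ j, x j ≤ 1 := by
    intro j
    have h := hup (fun i => if i = j then 1 else 0) (fun i => by
      show (if i = j then 1 else 0) ≤ W
      split_ifs <;> omega)
    have h2 : ((opt I (fun i => if i = j then 1 else 0) : ℕ) : ℝ) ≤ 1 := by
      exact_mod_cast opt_single (I := I) j
    simp only [Nat.cast_ite, Nat.cast_one, Nat.cast_zero] at h
    rw [sum_single] at h
    linarith
  have h3 : ∀ j, j ∉ S → ∑ i ∈ S, x i + x j ≤ S.card := by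
    intro j hj
    have h := hup (fun i => (if i ∈ S then 1 else 0) + if i = j then 1 else 0) (fun i => by
      show (if i ∈ S then 1 else 0) + (if i = j then 1 else 0) ≤ W
      split_ifs <;> omega)
    have h2 : ((opt I (fun i => (if i ∈ S then 1 else 0) + if i = j then 1 else 0) : ℕ) : ℝ) ≤ S.card := by
      exact_mod_cast opt_add hm hj
    simp only [Nat.cast_add, Nat.cast_ite, Nat.cast_one, Nat.cast_zero, add_mul, sum_add_distrib] at h
    rw [sum_single, sum_ind] at h
    linarith
  have h5 : (Fintype.card J : ℝ) * ∑ i ∈ S, x i + ∑ i, x i = (Fintype.card J + 1) * S.card := by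
    have h6 : ∑ j, (((if j ∈ S then Fintype.card J else 0) + 1 : ℕ) : ℝ) * x j =
        (Fintype.card J : ℝ) * ∑ i ∈ S, x i + ∑ i, x i := by
      have h7 : ∀ j, (((if j ∈ S then Fintype.card J else 0) + 1 : ℕ) : ℝ) * x j =
          (Fintype.card J : ℝ) * ((if j ∈ S then (1 : ℝ) else 0) * x j) + x j := by
        intro j
        push_cast
        split_ifs <;> ring
      rw [sum_congr rfl fun j _ => h7 j, sum_add_distrib, ← mul_sum, sum_ind]
    rw [← h6, ← hv]
    push_cast
    ring
  have h8 : ∑ i, x i = ∑ i ∈ S, x i + ∑ i ∈ Sᶜ, x i := (sum_add_sum_compl S x).symm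
  have h9 : ∑ i ∈ Sᶜ, x i ≤ Fintype.card J * (S.card - ∑ i ∈ S, x i) := by
    have h10 : ∑ i ∈ Sᶜ, x i ≤ ∑ _i ∈ Sᶜ, ((S.card : ℝ) - ∑ i ∈ S, x i) :=
      sum_le_sum fun i hi => by linarith [h3 i (mem_compl.1 hi)]
    rw [sum_const, nsmul_eq_mul] at h10
    refine h10.trans (mul_le_mul_of_nonneg_right ?_ ?_)
    · exact_mod_cast card_le_univ (Sᶜ)
    · have h11 : ∑ i ∈ S, x i ≤ ∑ _i ∈ S, (1 : ℝ) := sum_le_sum fun i _ => h1 i
      rw [sum_const, nsmul_eq_mul, mul_one] at h11
      linarith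
  have h11 : ∑ i ∈ S, x i ≤ ∑ _i ∈ S, (1 : ℝ) := sum_le_sum fun i _ => h1 i
  rw [sum_const, nsmul_eq_mul, mul_one] at h11
  have h2 : ∑ i ∈ S, x i = S.card := by
    rw [h8] at h5
    nlinarith
  have h12 : ∑ i ∈ Sᶜ, x i = 0 := by
    rw [h8, h2] at h5
    linarith
  have h4 : ∀ j, j ∉ S → 0 ≤ x j := by
    intro j hj
    have h13 : ∀ i ∈ Sᶜ, 0 ≤ -x i := fun i hi => by
      have := h3 i (mem_compl.1 hi)
      rw [h2] at this
      linarith
    have h14 : ∑ i ∈ Sᶜ, -x i = 0 := by rw [sum_neg_distrib, h12, neg_zero]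
    have := (sum_eq_zero_iff_of_nonneg h13).1 h14 j (mem_compl.2 hj)
    linarith
  refine ⟨y, ?_⟩
  rw [← eq_ind h1 h2 h3 h4]
  exact hxy

/-- **Linear programs** for a hard system have many inequalities. -/
theorem lp_lower {α : Type} [Fintype α] [DecidableEq α] {W : ℕ} (H : Hard I W α)
    (hW : Fintype.card J + 1 ≤ W) (hJ : 1 ≤ Fintype.card J) {r : ℕ} {Q : LP J r}
    (hQ : Q.Solves I W) : 3 ^ Fintype.card α ≤ (r + 1) * 2 ^ Fintype.card α := by
  choose y hy using fun b => lp_point hQ hW hJ (H.feas b) (H.maxl b)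
  -- the dual solutions
  have hdual : ∀ a, ∃ (lam : Fin r → ℝ) (κ : ℝ), (∀ k, 0 ≤ lam k) ∧ 0 ≤ κ ∧ ∀ x z, Q.Sat x z →
      (H.β a : ℝ) - ∑ j, (H.w a j : ℝ) * x j =
        κ + ∑ k, lam k * (Q.e k - (∑ j, Q.C k j * x j + ∑ i, Q.D k i * z i)) := by
    intro a
    obtain ⟨lam, mu, h1, h2, h3⟩ := lp_dual (V := J ⊕ Fin Q.q)
      (fun k => Sum.elim (Q.C k) (Q.D k)) Q.e (fun k => Sum.elim (Q.E k) (Q.F k)) Q.g
      (Sum.elim (fun j => (H.w a j : ℝ)) (fun _ => 0)) (H.β a)
      ⟨Sum.elim (fun j => if j ∈ H.S ∅ then 1 else 0) (y ∅), by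
        simpa only [Fintype.sum_sum_type, Sum.elim_inl, Sum.elim_inr] using (hy ∅).1, by
        simpa only [Fintype.sum_sum_type, Sum.elim_inl, Sum.elim_inr] using (hy ∅).2⟩
      (fun z hz1 hz2 => by
        have h4 := (hQ (H.w a) (H.small a)).2 ⟨fun j => z (Sum.inl j), fun i => z (Sum.inr i), ⟨by
          simpa only [Fintype.sum_sum_type, Sum.elim_inl, Sum.elim_inr] using hz1, by
          simpa only [Fintype.sum_sum_type, Sum.elim_inl, Sum.elim_inr] using hz2⟩, rfl⟩
        have h5 : ((opt I (H.w a) : ℕ) : ℝ) ≤ H.β a := by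
          exact_mod_cast opt_le fun T hT => H.bound a T hT
        simp only [Fintype.sum_sum_type, Sum.elim_inl, Sum.elim_inr, zero_mul, sum_const_zero, add_zero]
        exact h4.trans h5)
    refine ⟨lam, H.β a - (∑ k, lam k * Q.e k + ∑ k, mu k * Q.g k), h1, by linarith, fun x z hxz => ?_⟩
    have hJ : ∀ j, (H.w a j : ℝ) = ∑ k, lam k * Q.C k j + ∑ k, mu k * Q.E k j := fun j => by
      simpa only [Sum.elim_inl] using h2 (Sum.inl j)
    have hI : ∀ i, (0 : ℝ) = ∑ k, lam k * Q.D k i + ∑ k, mu k * Q.F k i := fun i => by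
      simpa only [Sum.elim_inr] using h2 (Sum.inr i)
    have e1 : ∑ j, (H.w a j : ℝ) * x j = ∑ k, lam k * ∑ j, Q.C k j * x j + ∑ k, mu k * ∑ j, Q.E k j * x j := by
      rw [sum_congr rfl fun j _ => by rw [hJ j]]
      simp only [add_mul, sum_add_distrib, sum_mul, mul_sum]
      rw [sum_comm, sum_comm (s := (univ : Finset J))]
      congr 1 <;> refine sum_congr rfl fun k _ => sum_congr rfl fun j _ => by ring
    have e2 : (0 : ℝ) = ∑ k, lam k * ∑ i, Q.D k i * z i + ∑ k, mu k * ∑ i, Q.F k i * z i := by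
      have : (0 : ℝ) = ∑ i, (0 : ℝ) * z i := by simp
      rw [this, sum_congr rfl fun i _ => by rw [hI i]]
      simp only [add_mul, sum_add_distrib, sum_mul, mul_sum]
      rw [sum_comm, sum_comm (s := (univ : Finset (Fin Q.q)))]
      congr 1 <;> refine sum_congr rfl fun k _ => sum_congr rfl fun j _ => by ring
    have e3 : ∑ k, mu k * Q.g k = ∑ k, mu k * ∑ j, Q.E k j * x j + ∑ k, mu k * ∑ i, Q.F k i * z i := by
      rw [← sum_add_distrib]
      refine sum_congr rfl fun k _ => ?_
      rw [← mul_add, hxz.2 k]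
    have e4 : ∑ k, lam k * (Q.e k - (∑ j, Q.C k j * x j + ∑ i, Q.D k i * z i)) =
        ∑ k, lam k * Q.e k - (∑ k, lam k * ∑ j, Q.C k j * x j + ∑ k, lam k * ∑ i, Q.D k i * z i) := by
      rw [← sum_add_distrib, ← sum_sub_distrib]
      exact sum_congr rfl fun k _ => by ring
    rw [e4, e1]
    linarith
  choose lam κ h1 h2 h3 using hdual
  obtain ⟨sl, hsl⟩ : ∃ sl : Fin r → Finset α → ℝ, ∀ k b, sl k b =
      Q.e k - (∑ j, Q.C k j * (if j ∈ H.S b then 1 else 0) + ∑ i, Q.D k i * y b i) := ⟨_, fun _ _ => rfl⟩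
  have hval : ∀ a b, ∑ k : Unit ⊕ Fin r, Sum.elim (fun _ => κ a) (lam a) k *
      (Sum.elim (fun _ => fun _ => (1 : ℝ)) sl k : Finset α → ℝ) b =
      (H.β a : ℝ) - ((∑ j ∈ H.S b, H.w a j : ℕ) : ℝ) := by
    intro a b
    rw [← sum_w_ind, h3 a _ _ (hy b)]
    simp only [Fintype.sum_sum_type, Sum.elim_inl, Sum.elim_inr, univ_unique, sum_singleton, mul_one, hsl]
  have := nonneg_factor (α := α) (K := Unit ⊕ Fin r) (fun a => Sum.elim (fun _ => κ a) (lam a))
    (Sum.elim (fun _ => fun _ => (1 : ℝ)) sl)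
    (fun a k => by
      rcases k with _ | k
      · exact h2 a
      · exact h1 a k)
    (fun k b => by
      rcases k with _ | k
      · exact zero_le_one
      · have h4 := (hy b).1 k
        show 0 ≤ sl k b
        rw [hsl]
        linarith)
    (fun a b hab => by
      rw [hval, H.one a b hab, sub_self])
    (fun a b hab => by
      rw [hval]
      have h4 : ((∑ j ∈ H.S b, H.w a j : ℕ) : ℝ) < (H.β a : ℝ) := by exact_mod_cast H.zero a b hab
      linarith)
  rwa [Fintype.card_sum, Fintype.card_unit, Fintype.card_fin, add_comm 1 r] at this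

/-! ### circuits -/

/-- the gap at a maximum gate between its value and the value of one of its operands -/
private noncomputable def gap {s : ℕ} (C : Circuit J s) (v : Fin s → ℝ) (h : Fin s) (τ : Bool) : ℝ :=
  match C.gate h with
  | Gate.max a b => v h - (if τ then v a else v b)
  | _ => 0

omit [Fintype J] [DecidableEq J] in
private theorem gap_nonneg {s : ℕ} {C : Circuit J s} {w : J → ℝ} {v : Fin s → ℝ} (hv : C.Val w v)
    (h : Fin s) (τ : Bool) : 0 ≤ gap C v h τ := by
  unfold gap
  have h1 := hv h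
  split
  · rename_i a b hg
    rw [hg] at h1
    simp only at h1
    rw [h1]
    cases τ
    · simp
    · simp
  · exact le_rfl

omit [Fintype J] [DecidableEq J] in
/-- there is a choice of operands without gaps -/
private theorem exists_strategy {s : ℕ} {C : Circuit J s} {w : J → ℝ} {v : Fin s → ℝ} (hv : C.Val w v) :
    ∃ σ : Fin s → Bool, ∀ h, gap C v h (σ h) = 0 := by
  have : ∀ h, ∃ τ, gap C v h τ = 0 := by
    intro h
    unfold gap
    have h1 := hv h
    split
    · rename_i a b hg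
      rw [hg] at h1
      simp only at h1
      rcases le_total (v b) (v a) with h2 | h2
      · refine ⟨true, ?_⟩
        rw [h1, max_eq_left h2]
        simp
      · refine ⟨false, ?_⟩
        rw [h1, max_eq_right h2]
        simp
    · exact ⟨true, rfl⟩
  choose σ hσ using this
  exact ⟨σ, hσ⟩

/-- for a fixed choice of operands every gate is a linear function plus nonnegative multiples of
the gaps -/
private theorem lin {s : ℕ} (C : Circuit J s) (σ : Fin s → Bool) (k : Fin s) :
    ∃ (x : J → ℝ) (c : ℝ) (μ : Fin s → ℝ), (∀ j, 0 ≤ x j) ∧ (∀ h, 0 ≤ μ h) ∧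
      ∀ w v, C.Val w v → v k = ∑ j, w j * x j + c + ∑ h, μ h * gap C v h (σ h) := by
  induction k using WellFoundedLT.induction with
  | _ k ih =>
    rcases hg : C.gate k with j | c | ⟨a, b⟩ | ⟨a, b⟩
    · refine ⟨fun i => if i = j then 1 else 0, 0, fun _ => 0, fun i => ?_, fun _ => le_rfl, fun w v hv => ?_⟩
      · show (0 : ℝ) ≤ if i = j then 1 else 0
        split_ifs <;> norm_num
      · have h1 := hv k
        rw [hg] at h1
        simp only at h1
        rw [h1]
        simp
    · refine ⟨fun _ => 0, c, fun _ => 0, fun _ => le_rfl, fun _ => le_rfl, fun w v hv => ?_⟩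
      have h1 := hv k
      rw [hg] at h1
      simp only at h1
      rw [h1]
      simp
    · obtain ⟨ha, hb⟩ := C.max_lt k a b hg
      obtain ⟨x, c, μ, hx, hμ, hl⟩ := ih (if σ k then a else b) (by split_ifs <;> assumption)
      refine ⟨x, c, fun h => μ h + if h = k then 1 else 0, hx, fun h => ?_, fun w v hv => ?_⟩
      · have := hμ h
        show 0 ≤ μ h + if h = k then 1 else 0
        split_ifs <;> linarith
      · have h1 : v k = v (if σ k then a else b) + gap C v k (σ k) := by
          unfold gap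
          rw [hg]
          simp only
          cases σ k <;> simp
        rw [h1, hl w v hv]
        simp only [add_mul, sum_add_distrib, ite_mul, one_mul, zero_mul, sum_ite_eq', mem_univ, if_true]
        ring
    · obtain ⟨ha, hb⟩ := C.plus_lt k a b hg
      obtain ⟨x, c, μ, hx, hμ, hl⟩ := ih a ha
      obtain ⟨x', c', μ', hx', hμ', hl'⟩ := ih b hb
      refine ⟨fun j => x j + x' j, c + c', fun h => μ h + μ' h, fun j => add_nonneg (hx j) (hx' j),
        fun h => add_nonneg (hμ h) (hμ' h), fun w v hv => ?_⟩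
      have h1 := hv k
      rw [hg] at h1
      simp only at h1
      rw [h1, hl w v hv, hl' w v hv]
      simp only [mul_add, add_mul, sum_add_distrib]
      ring

private theorem circuit_point {W s : ℕ} {C : Circuit J s} (hC : C.Solves I W) (hW : 2 ≤ W) {S : Finset J}
    (hS : Feasible I S) (hm : ∀ T, Feasible I T → S ⊆ T → T = S) :
    ∃ (σ : Fin s → Bool) (μ : Fin s → ℝ), (∀ h, 0 ≤ μ h) ∧ ∀ (w : J → ℕ) (v : Fin s → ℝ),
      C.Val (fun j => (w j : ℝ)) v →
        v C.out = ((∑ j ∈ S, w j : ℕ) : ℝ) + ∑ h, μ h * gap C v h (σ h) := by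
  -- an optimal choice of operands for the weights `1_S`
  obtain ⟨v, hv, ho⟩ := hC (fun j => if j ∈ S then 1 else 0) (fun j => by
    show (if j ∈ S then 1 else 0) ≤ W
    split_ifs <;> omega)
  rw [opt_ind hS, one_mul] at ho
  obtain ⟨σ, hσ⟩ := exists_strategy hv
  obtain ⟨x, c, μ, hx, hμ, hl⟩ := lin C σ C.out
  have hsum : ∀ t : ℕ, ∑ j, (((if j ∈ S then t else 0 : ℕ)) : ℝ) * x j = t * ∑ j ∈ S, x j := by
    intro t
    rw [← sum_ind S x, mul_sum]
    refine sum_congr rfl fun j _ => ?_
    push_cast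
    split_ifs <;> ring
  have hup : ∀ w : J → ℕ, (∀ j, w j ≤ W) → ∑ j, (w j : ℝ) * x j + c ≤ opt I w := by
    intro w hw
    obtain ⟨v', hv', ho'⟩ := hC w hw
    rw [← ho', hl _ _ hv']
    have : 0 ≤ ∑ h, μ h * gap C v' h (σ h) :=
      sum_nonneg fun h _ => mul_nonneg (hμ h) (gap_nonneg hv' h _)
    linarith
  have e1 : (S.card : ℝ) = ∑ j ∈ S, x j + c := by
    have h0 : ∑ h, μ h * gap C v h (σ h) = 0 := sum_eq_zero fun h _ => by rw [hσ h, mul_zero]
    have h1 := hl _ _ hv
    rw [ho, hsum, h0, add_zero, Nat.cast_one, one_mul] at h1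
    exact h1
  have e2 : 2 * ∑ j ∈ S, x j + c ≤ 2 * S.card := by
    have h1 := hup (fun j => if j ∈ S then 2 else 0) (fun j => by
      show (if j ∈ S then 2 else 0) ≤ W
      split_ifs <;> omega)
    rw [hsum, opt_ind hS] at h1
    push_cast at h1
    exact h1
  have e3 : c ≤ 0 := by
    have h1 := hup (fun j => if j ∈ S then 0 else 0) (fun j => by
      show (if j ∈ S then 0 else 0) ≤ W
      split_ifs <;> omega)
    rw [hsum, opt_ind hS] at h1
    push_cast at h1
    linarith
  have h2 : ∑ j ∈ S, x j = S.card := by linarith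
  have hc : c = 0 := by linarith
  rw [hc] at hup
  have h3 : ∀ j, x j ≤ 1 := by
    intro j
    have h := hup (fun i => if i = j then 1 else 0) (fun i => by
      show (if i = j then 1 else 0) ≤ W
      split_ifs <;> omega)
    have h2 : ((opt I (fun i => if i = j then 1 else 0) : ℕ) : ℝ) ≤ 1 := by
      exact_mod_cast opt_single (I := I) j
    simp only [Nat.cast_ite, Nat.cast_one, Nat.cast_zero] at h
    rw [sum_single] at h
    linarith
  have h4 : ∀ j, j ∉ S → ∑ i ∈ S, x i + x j ≤ S.card := by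
    intro j hj
    have h := hup (fun i => (if i ∈ S then 1 else 0) + if i = j then 1 else 0) (fun i => by
      show (if i ∈ S then 1 else 0) + (if i = j then 1 else 0) ≤ W
      split_ifs <;> omega)
    have h2 : ((opt I (fun i => (if i ∈ S then 1 else 0) + if i = j then 1 else 0) : ℕ) : ℝ) ≤ S.card := by
      exact_mod_cast opt_add hm hj
    simp only [Nat.cast_add, Nat.cast_ite, Nat.cast_one, Nat.cast_zero, add_mul, sum_add_distrib] at h
    rw [sum_single, sum_ind] at h
    linarith
  have hxS := eq_ind h3 h2 h4 (fun j _ => hx j)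
  refine ⟨σ, μ, hμ, fun w v' hv' => ?_⟩
  rw [hl _ _ hv', hc, add_zero, hxS, sum_w_ind]

/-- **Circuits over maximum and sum** for a hard system have many gates. -/
theorem circuit_lower {α : Type} [Fintype α] [DecidableEq α] {W : ℕ} (H : Hard I W α) (hW : 2 ≤ W)
    {s : ℕ} {C : Circuit J s} (hC : C.Solves I W) :
    3 ^ Fintype.card α ≤ (2 * s + 1) * 2 ^ Fintype.card α := by
  choose σ μ hμ hp using fun b => circuit_point hC hW (H.feas b) (H.maxl b)
  choose v hv ho using fun a => hC (H.w a) (H.small a)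
  have hβ : ∀ a, ((opt I (H.w a) : ℕ) : ℝ) ≤ H.β a := fun a => by
    exact_mod_cast opt_le fun T hT => H.bound a T hT
  obtain ⟨F, hF⟩ : ∃ F : Finset α → (Unit ⊕ (Fin s × Bool)) → ℝ, ∀ a k, F a k =
      Sum.elim (fun _ => (H.β a : ℝ) - opt I (H.w a)) (fun p => gap C (v a) p.1 p.2) k :=
    ⟨_, fun _ _ => rfl⟩
  obtain ⟨G, hG⟩ : ∃ G : (Unit ⊕ (Fin s × Bool)) → Finset α → ℝ, ∀ k b, G k b =
      Sum.elim (fun _ => (1 : ℝ)) (fun p => if p.2 = σ b p.1 then μ b p.1 else 0) k :=
    ⟨_, fun _ _ => rfl⟩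
  have hval : ∀ a b, ∑ k, F a k * G k b = (H.β a : ℝ) - ((∑ j ∈ H.S b, H.w a j : ℕ) : ℝ) := by
    intro a b
    have h1 := hp b (H.w a) (v a) (hv a)
    rw [Fintype.sum_sum_type, univ_unique, sum_singleton, hF, hG, Sum.elim_inl, Sum.elim_inl, mul_one,
      Fintype.sum_prod_type]
    have h2 : ∀ h, ∑ τ, F a (Sum.inr (h, τ)) * G (Sum.inr (h, τ)) b = μ b h * gap C (v a) h (σ b h) := by
      intro h
      have h3 : ∀ τ, F a (Sum.inr (h, τ)) * G (Sum.inr (h, τ)) b =
          if τ = σ b h then μ b h * gap C (v a) h (σ b h) else 0 := by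
        intro τ
        rw [hF, hG, Sum.elim_inr, Sum.elim_inr]
        show gap C (v a) h τ * (if τ = σ b h then μ b h else 0) = _
        split_ifs with h4
        · rw [h4]
          ring
        · rw [mul_zero]
      rw [sum_congr rfl fun τ _ => h3 τ, sum_ite_eq', if_pos (mem_univ _)]
    rw [sum_congr rfl fun h _ => h2 h]
    rw [ho a] at h1
    linarith
  have := nonneg_factor (α := α) (K := Unit ⊕ (Fin s × Bool)) F G
    (fun a k => by
      rw [hF]
      rcases k with _ | k
      · exact sub_nonneg.2 (hβ a)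
      · exact gap_nonneg (hv a) _ _)
    (fun k b => by
      rw [hG]
      rcases k with _ | k
      · exact zero_le_one
      · show 0 ≤ if k.2 = σ b k.1 then μ b k.1 else 0
        split_ifs
        · exact hμ _ _
        · exact le_rfl)
    (fun a b hab => by
      rw [hval, H.one a b hab, sub_self])
    (fun a b hab => by
      rw [hval]
      have h4 : ((∑ j ∈ H.S b, H.w a j : ℕ) : ℝ) < (H.β a : ℝ) := by exact_mod_cast H.zero a b hab
      linarith)
  rw [Fintype.card_sum, Fintype.card_unit, Fintype.card_prod, Fintype.card_fin, Fintype.card_bool] at this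
  have h5 : 1 + s * 2 = 2 * s + 1 := by ring
  rwa [h5] at this

end

end Pool.Agent.Lib.MP_f25cb6_lc.Lp
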