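import Mathlib

/-!
# Interval scheduling with eligible machines: linear programs and dynamic programs

Systems of jobs, the optimum, linear programs with free equations, and circuits over the operations
maximum and sum (pure dynamic programs).
-/

set_option autoImplicit false

namespace Pool.Agent.Lib.MP_f25cb6_lc.Lp

/-- A system of jobs on `m` machines: job `j` occupies exactly the time interval
`[release j, due j)` and may be processed on the machines in `elig j`. -/
structure Jobs (m : ℕ) (J : Type) where
  release : J → ℕ
  due : J → ℕ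
  pos : ∀ j, release j < due j
  elig : J → Finset (Fin m)

/-- The jobs in `S` can be processed: there is an assignment of eligible machines such that jobs on
the same machine are disjoint. -/
def Feasible {m : ℕ} {J : Type} (I : Jobs m J) (S : Finset J) : Prop :=
  ∃ σ : J → Fin m, (∀ j ∈ S, σ j ∈ I.elig j) ∧
    ∀ j ∈ S, ∀ j' ∈ S, j ≠ j' → σ j = σ j' → I.due j ≤ I.release j' ∨ I.due j' ≤ I.release j

open Classical in
/-- The largest total weight of a feasible set of jobs. -/
noncomputable def opt {m : ℕ} {J : Type} [Fintype J] (I : Jobs m J) (w : J → ℕ) : ℕ :=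
  (Finset.univ.filter (fun S : Finset J => Feasible I S)).sup (fun S => ∑ j ∈ S, w j)

/-- The constraints of a linear program: `r` linear inequalities and any number `s` of linear
equations in the variables `x j`, one for each job, and any number `q` of further variables. -/
structure LP (J : Type) (r : ℕ) where
  q : ℕ
  s : ℕ
  C : Fin r → J → ℝ
  D : Fin r → Fin q → ℝ
  e : Fin r → ℝ
  E : Fin s → J → ℝ
  F : Fin s → Fin q → ℝ
  g : Fin s → ℝ

/-- `(x, y)` satisfies the constraints. -/
def LP.Sat {J : Type} [Fintype J] {r : ℕ} (Q : LP J r) (x : J → ℝ) (y : Fin Q.q → ℝ) : Prop :=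
  (∀ k, ∑ j, Q.C k j * x j + ∑ i, Q.D k i * y i ≤ Q.e k) ∧
    ∀ k, ∑ j, Q.E k j * x j + ∑ i, Q.F k i * y i = Q.g k

/-- The linear program solves the scheduling problem for the system `I` and weights at most `W`: for
all weights `w` with `w j ≤ W` the maximum of `∑ w j * x j` under the constraints is the optimum. -/
def LP.Solves {m : ℕ} {J : Type} [Fintype J] {r : ℕ} (Q : LP J r) (I : Jobs m J) (W : ℕ) : Prop :=
  ∀ w : J → ℕ, (∀ j, w j ≤ W) →
    IsGreatest {t : ℝ | ∃ x y, Q.Sat x y ∧ t = ∑ j, (w j : ℝ) * x j} (opt I w)

/-- The gates of a circuit with `s` gates: a weight, a real constant, the maximum or the sum of two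
gates. -/
inductive Gate (J : Type) (s : ℕ)
  | input (j : J)
  | const (c : ℝ)
  | max (a b : Fin s)
  | plus (a b : Fin s)

/-- A circuit over maximum and sum: the operands of a gate are earlier gates. -/
structure Circuit (J : Type) (s : ℕ) where
  gate : Fin s → Gate J s
  out : Fin s
  max_lt : ∀ k a b, gate k = Gate.max a b → a < k ∧ b < k
  plus_lt : ∀ k a b, gate k = Gate.plus a b → a < k ∧ b < k

/-- `v` are the values of the gates for the weights `w` (they are unique). -/
def Circuit.Val {J : Type} {s : ℕ} (C : Circuit J s) (w : J → ℝ) (v : Fin s → ℝ) : Prop :=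
  ∀ k, v k = match C.gate k with
    | Gate.input j => w j
    | Gate.const c => c
    | Gate.max a b => Max.max (v a) (v b)
    | Gate.plus a b => v a + v b

/-- The circuit computes the optimum of the system `I` for all weights which are at most `W`. -/
def Circuit.Solves {m : ℕ} {J : Type} [Fintype J] {s : ℕ} (C : Circuit J s) (I : Jobs m J) (W : ℕ) :
    Prop :=
  ∀ w : J → ℕ, (∀ j, w j ≤ W) → ∃ v : Fin s → ℝ, C.Val (fun j => (w j : ℝ)) v ∧ v C.out = opt I w

/-! ### the optimum -/

theorem le_opt {m : ℕ} {J : Type} [Fintype J] {I : Jobs m J} {S : Finset J} (hS : Feasible I S)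
    (w : J → ℕ) : ∑ j ∈ S, w j ≤ opt I w := by
  classical
  unfold opt
  exact Finset.le_sup (f := fun S : Finset J => ∑ j ∈ S, w j)
    (Finset.mem_filter.2 ⟨Finset.mem_univ _, hS⟩)

theorem opt_le {m : ℕ} {J : Type} [Fintype J] {I : Jobs m J} {w : J → ℕ} {B : ℕ}
    (h : ∀ S, Feasible I S → ∑ j ∈ S, w j ≤ B) : opt I w ≤ B := by
  classical
  unfold opt
  exact Finset.sup_le fun S hS => h S (Finset.mem_filter.1 hS).2

end Pool.Agent.Lib.MP_f25cb6_lc.Lp
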