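import Pool.Agent.Lib.MP_f25cb6_lc.Lp.Up

/-!
# The schedule of given states
-/

set_option autoImplicit false

namespace Pool.Agent.Lib.MP_f25cb6_lc.Lp

open Finset

variable {m A X : ℕ} {i0 : Fin m}

open Classical in
/-- the unit job of machine `i` in window `k` -/
noncomputable def tst (X : ℕ) (u : Fin m → Fin A) (i : Fin m) (k : Fin (nw m A)) : Jb m A (nw m A) X :=
  if i = ws k then Jb.Z k (u (ws k)) else
    if h : i = wt k ∧ ∃ x : Fin A, (x : ℕ) + A = u i + we k ∧ x ≠ u (ws k) then Jb.Z k h.2.choose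
    else Jb.P i (u i) k

/-- the three cases -/
theorem tst_cases (u : Fin m → Fin A) (i : Fin m) (k : Fin (nw m A)) :
    (i = ws k ∧ tst X u i k = Jb.Z k (u (ws k))) ∨
    (i ≠ ws k ∧ i = wt k ∧ ∃ x : Fin A, (x : ℕ) + A = u i + we k ∧ x ≠ u (ws k) ∧ tst X u i k = Jb.Z k x) ∨
    (i ≠ ws k ∧ (¬ (i = wt k ∧ ∃ x : Fin A, (x : ℕ) + A = u i + we k ∧ x ≠ u (ws k))) ∧
      tst X u i k = Jb.P i (u i) k) := by
  classical
  by_cases h1 : i = ws k
  · left
    refine ⟨h1, ?_⟩
    unfold tst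
    rw [if_pos h1]
  · right
    by_cases h2 : i = wt k ∧ ∃ x : Fin A, (x : ℕ) + A = u i + we k ∧ x ≠ u (ws k)
    · left
      refine ⟨h1, h2.1, h2.2.choose, h2.2.choose_spec.1, h2.2.choose_spec.2, ?_⟩
      unfold tst
      rw [if_neg h1, dif_pos h2]
    · right
      refine ⟨h1, h2, ?_⟩
      unfold tst
      rw [if_neg h1, dif_neg h2]

/-- the assignment of the machines -/
def sg (i0 : Fin m) (u : Fin m → Fin A) : Jb m A (nw m A) X → Fin m
  | Jb.L i _ _ => i
  | Jb.P i _ _ => i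
  | Jb.Z k x => if x = u (ws k) then ws k else wt k
  | Jb.X _ => i0

theorem sg_Z (u : Fin m → Fin A) (k : Fin (nw m A)) (x : Fin A) :
    sg i0 u (Jb.Z k x : Jb m A (nw m A) X) = if x = u (ws k) then ws k else wt k := rfl

theorem rel_tst (u : Fin m → Fin A) (i : Fin m) (k : Fin (nw m A)) : rel (tst X u i k) = tau i (u i) k := by
  rcases tst_cases (X := X) u i k with ⟨h1, h2⟩ | ⟨h1, h2, x, h3, _, h4⟩ | ⟨_, _, h3⟩
  · rw [h2, h1]
    exact relZ_eq_iff_s.2 rfl
  · rw [h4]
    subst h2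
    exact (relZ_eq_iff_t h1).2 h3
  · rw [h3, rel_P]

theorem due_tst (u : Fin m → Fin A) (i : Fin m) (k : Fin (nw m A)) : due (tst X u i k) = tau i (u i) k + 1 := by
  have h := rel_tst (X := X) u i k
  rcases tst_cases (X := X) u i k with ⟨h1, h2⟩ | ⟨h1, h2, x, h3, _, h4⟩ | ⟨_, _, h3⟩
  · rw [h2, due_Z, ← h2, h]
  · rw [h4, due_Z, ← h4, h]
  · rw [h3, due_P]

theorem sg_tst (u : Fin m → Fin A) (i : Fin m) (k : Fin (nw m A)) : sg i0 u (tst X u i k) = i := by
  rcases tst_cases (X := X) u i k with ⟨h1, h2⟩ | ⟨h1, h2, x, h3, h5, h4⟩ | ⟨_, _, h3⟩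
  · rw [h2, sg_Z, if_pos rfl, h1]
  · rw [h4, sg_Z, if_neg h5, h2]
  · rw [h3]
    rfl

theorem elg_tst (u : Fin m → Fin A) (i : Fin m) (k : Fin (nw m A)) : i ∈ elg i0 (tst X u i k) := by
  rcases tst_cases (X := X) u i k with ⟨h1, h2⟩ | ⟨h1, h2, x, h3, h5, h4⟩ | ⟨_, _, h3⟩
  · rw [h2, h1]
    exact mem_insert_self _ _
  · rw [h4, h2]
    exact mem_insert_of_mem (mem_singleton_self _)
  · rw [h3]
    exact mem_singleton_self _

theorem tst_ne_L (u : Fin m → Fin A) (i : Fin m) (k : Fin (nw m A)) (i' : Fin m) (v : Fin A)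
    (k' : Fin (nw m A + 1)) : tst X u i k ≠ Jb.L i' v k' := by
  rcases tst_cases (X := X) u i k with ⟨h1, h2⟩ | ⟨h1, h2, x, h3, h5, h4⟩ | ⟨_, _, h3⟩
  · rw [h2]
    intro h
    cases h
  · rw [h4]
    intro h
    cases h
  · rw [h3]
    intro h
    cases h

/-- the schedule with the states `u` -/
noncomputable def hon (X : ℕ) (u : Fin m → Fin A) : Finset (Jb m A (nw m A) X) :=
  (univ.image (fun p : Fin m × Fin (nw m A + 1) => (Jb.L p.1 (u p.1) p.2 : Jb m A (nw m A) X))) ∪
    univ.image (fun p : Fin m × Fin (nw m A) => tst X u p.1 p.2)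

theorem mem_hon {u : Fin m → Fin A} {j : Jb m A (nw m A) X} :
    j ∈ hon X u ↔ (∃ i k, j = Jb.L i (u i) k) ∨ ∃ i k, j = tst X u i k := by
  unfold hon
  rw [mem_union, mem_image, mem_image]
  constructor
  · rintro (⟨p, _, rfl⟩ | ⟨p, _, rfl⟩)
    · exact Or.inl ⟨p.1, p.2, rfl⟩
    · exact Or.inr ⟨p.1, p.2, rfl⟩
  · rintro (⟨i, k, rfl⟩ | ⟨i, k, rfl⟩)
    · exact Or.inl ⟨(i, k), mem_univ _, rfl⟩
    · exact Or.inr ⟨(i, k), mem_univ _, rfl⟩

theorem sum_hon (u : Fin m → Fin A) {R : Type} [AddCommMonoid R] (f : Jb m A (nw m A) X → R) :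
    ∑ j ∈ hon X u, f j = ∑ i, ∑ k, f (Jb.L i (u i) k) + ∑ i, ∑ k, f (tst X u i k) := by
  unfold hon
  rw [sum_union, sum_image, sum_image, Fintype.sum_prod_type, Fintype.sum_prod_type]
  · intro p _ q _ hpq
    have h1 := sg_tst (X := X) (i0 := p.1) u p.1 p.2
    have h2 := sg_tst (X := X) (i0 := p.1) u q.1 q.2
    have hpq' : tst X u p.1 p.2 = tst X u q.1 q.2 := hpq
    rw [hpq', h2] at h1
    have h3 := rel_tst (X := X) u p.1 p.2
    rw [hpq', rel_tst, h1] at h3
    exact Prod.ext h1.symm (tau_inj p.1 h3.symm).2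
  · intro p _ q _ hpq
    have h1 := Jb.L.inj hpq
    exact Prod.ext h1.1 h1.2.2
  · rw [disjoint_left]
    intro j h1 h2
    rw [mem_image] at h1 h2
    obtain ⟨p, _, rfl⟩ := h1
    obtain ⟨q, _, h3⟩ := h2
    exact tst_ne_L u q.1 q.2 _ _ _ h3

/-- two intervals in the order of time -/
private theorem hon_dis (u : Fin m → Fin A) (i : Fin m) (k k' : Fin (nw m A + 1)) (h : k < k') :
    tn i (u i) k ≤ rel (Jb.L i (u i) k' : Jb m A (nw m A) X) := by
  have h1 := Fin.lt_def.1 h
  rw [rel_L, if_neg (by omega)]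
  rcases Nat.lt_or_eq_of_le (show (k : ℕ) ≤ k' - 1 by omega) with h2 | h2
  · have := tn_mono i (u i) h2 (by have := k'.2; omega)
    omega
  · rw [h2]
    omega

private theorem hon_dis2 (u : Fin m → Fin A) (i : Fin m) (k : Fin (nw m A + 1)) (k' : Fin (nw m A)) :
    tn i (u i) k ≤ tau i (u i) k' ∨ tau i (u i) k' + 1 ≤ rel (Jb.L i (u i) k : Jb m A (nw m A) X) := by
  have e1 := tn_of_lt i (u i) k'
  by_cases h : (k : ℕ) ≤ k'
  · left
    rcases Nat.lt_or_eq_of_le h with h2 | h2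
    · have := tn_mono i (u i) h2 (by have := k'.2; omega)
      omega
    · rw [h2, e1]
  · right
    rw [rel_L, if_neg (by omega)]
    rcases Nat.lt_or_eq_of_le (show (k' : ℕ) ≤ k - 1 by omega) with h2 | h2
    · have := tn_mono i (u i) h2 (by have := k.2; omega)
      omega
    · rw [← h2, e1]

private theorem hon_dis3 (u : Fin m → Fin A) (i : Fin m) {k k' : Fin (nw m A)} (h : k ≠ k') :
    tau i (u i) k + 1 ≤ tau i (u i) k' ∨ tau i (u i) k' + 1 ≤ tau i (u i) k := by
  rcases lt_or_gt_of_ne h with h1 | h1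
  · left
    have := tau_mono i (u i) (u i) h1
    omega
  · right
    have := tau_mono i (u i) (u i) h1
    omega

theorem hon_sch (i0 : Fin m) (u : Fin m → Fin A) : Sch i0 (hon X u) (sg i0 u) := by
  refine ⟨fun j hj => ?_, fun j hj j' hj' hne hs => ?_⟩
  · rcases mem_hon.1 hj with ⟨i, k, rfl⟩ | ⟨i, k, rfl⟩
    · exact mem_singleton_self _
    · rw [sg_tst]
      exact elg_tst u i k
  · rcases mem_hon.1 hj with ⟨i, k, rfl⟩ | ⟨i, k, rfl⟩
    · rcases mem_hon.1 hj' with ⟨i', k', rfl⟩ | ⟨i', k', rfl⟩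
      · have h1 : i = i' := hs
        subst h1
        rcases lt_trichotomy k k' with h2 | h2 | h2
        · exact Or.inl (hon_dis u i k k' h2)
        · exact absurd (by rw [h2]) hne
        · exact Or.inr (hon_dis u i k' k h2)
      · have h1 : i = i' := by rw [sg_tst] at hs; exact hs
        subst h1
        rw [rel_tst, due_tst, due_L]
        exact hon_dis2 u i k k'
    · rcases mem_hon.1 hj' with ⟨i', k', rfl⟩ | ⟨i', k', rfl⟩
      · have h1 : i = i' := by rw [sg_tst] at hs; exact hs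
        subst h1
        rw [rel_tst, due_tst, due_L]
        exact (hon_dis2 u i k' k).symm
      · have h1 : i = i' := by rw [sg_tst, sg_tst] at hs; exact hs
        subst h1
        rw [rel_tst, due_tst, rel_tst, due_tst]
        exact hon_dis3 u i fun h => hne (by rw [h])

/-- the long jobs and the unit jobs fill the schedule -/
private theorem sum_len (i : Fin m) (v : Fin A) (K : ℕ) (hK : K ≤ nw m A) :
    ∑ k ∈ range (K + 1), (tn i v k - if k = 0 then 0 else tn i v (k - 1) + 1) + K = tn i v K := by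
  induction K with
  | zero => simp
  | succ K ih =>
    rw [sum_range_succ, if_neg (by omega), Nat.add_sub_cancel]
    have h1 := ih (by omega)
    have h2 := tn_mono i v (k := K) (k' := K + 1) (by omega) hK
    omega

theorem hon_len (u : Fin m → Fin A) : ∑ j ∈ hon X u, (due j - rel j) = m * en m A := by
  rw [sum_hon]
  have h1 : ∀ i : Fin m, ∑ k, (due (Jb.L i (u i) k : Jb m A (nw m A) X) - rel (Jb.L i (u i) k : Jb m A (nw m A) X)) +
      ∑ k, (due (tst X u i k) - rel (tst X u i k)) = en m A := by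
    intro i
    have h2 : ∑ k : Fin (nw m A), (due (tst X u i k) - rel (tst X u i k)) = nw m A := by
      have : ∀ k : Fin (nw m A), due (tst X u i k) - rel (tst X u i k) = 1 := by
        intro k
        rw [due_tst, rel_tst]
        omega
      rw [sum_congr rfl fun k _ => this k, sum_const, card_univ, Fintype.card_fin, smul_eq_mul, mul_one]
    rw [h2]
    have h3 := sum_len i (u i) (nw m A) le_rfl
    rw [tn_of_ge i (u i) le_rfl] at h3
    rw [← h3]
    congr 1
    rw [← Fin.sum_univ_eq_sum_range (fun k => tn i (u i) k - if k = 0 then 0 else tn i (u i) (k - 1) + 1)]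
    refine sum_congr rfl fun k _ => ?_
    rw [due_L, rel_L]
  rw [← sum_add_distrib, sum_congr rfl fun i _ => h1 i, sum_const, card_univ, Fintype.card_fin, smul_eq_mul]

/-- the penalties of the schedule -/
private theorem bon_tst (g : Fin m → Fin A → ℕ) (u : Fin m → Fin A) (i : Fin m) (k : Fin (nw m A)) :
    bon g (tst X u i k) = -(if i = wt k then (if ws k ≠ wt k ∧ (u (ws k) : ℕ) + A = u (wt k) + we k then
      (g (ws k) (u (ws k)) : ℤ) * g (wt k) (u (wt k)) else 0) else 0) := by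
  rcases tst_cases (X := X) u i k with ⟨h1, h2⟩ | ⟨h1, h2, x, h3, h5, h4⟩ | ⟨h1, h2, h3⟩
  · rw [h2]
    show (0 : ℤ) = _
    by_cases h3 : i = wt k
    · rw [if_pos h3, if_neg, neg_zero]
      rintro ⟨h4, _⟩
      exact h4 (h1.symm.trans h3)
    · rw [if_neg h3, neg_zero]
  · rw [h4]
    show (0 : ℤ) = _
    rw [if_pos h2, if_neg, neg_zero]
    rintro ⟨_, h6⟩
    refine h5 (Fin.ext ?_)
    rw [← h2] at h6
    omega
  · rw [h3]
    show -(pen g i (u i) k : ℤ) = _
    congr 1
    unfold pen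
    rw [if_neg h1]
    by_cases h4 : i = wt k
    · rw [if_pos h4, if_pos h4]
      have h5 : ∀ x : Fin A, (x : ℕ) + A = u i + we k → x = u (ws k) := by
        intro x hx
        by_contra hne
        exact h2 ⟨h4, x, hx, hne⟩
      have h6 : ws k ≠ wt k := fun h => h1 (h4.trans h.symm)
      push_cast
      rw [sum_eq_single (u (ws k))]
      · subst h4
        by_cases h7 : ((u (ws k) : Fin A) : ℕ) + A = u (wt k) + we k
        · rw [if_pos h7, if_pos ⟨h6, h7⟩]
        · rw [if_neg h7, if_neg fun h => h7 h.2]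
      · intro x _ hx
        rw [if_neg fun h => hx (h5 x h)]
      · intro h
        exact absurd (mem_univ _) h
    · rw [if_neg h4, if_neg h4]
      rfl

/-- **The weight of the schedule.** -/
theorem hon_sum (g : Fin m → Fin A → ℕ) (u : Fin m → Fin A) (Λ : ℕ) :
    ∑ j ∈ hon X u, ((Λ : ℤ) * ((due j - rel j : ℕ) : ℤ) + bon g j) =
      Λ * (m * en m A : ℕ) + 2 * (∑ i, (g i (u i) : ℤ)) - (∑ i, (g i (u i) : ℤ)) ^ 2 := by
  rw [sum_add_distrib, ← mul_sum, ← Nat.cast_sum, hon_len, sum_hon]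
  have h1 : ∑ i : Fin m, ∑ k : Fin (nw m A + 1), bon g (Jb.L i (u i) k : Jb m A (nw m A) X) =
      2 * (∑ i, (g i (u i) : ℤ)) - ∑ i, (g i (u i) : ℤ) ^ 2 := by
    rw [mul_sum, ← sum_sub_distrib]
    refine sum_congr rfl fun i _ => ?_
    show ∑ k : Fin (nw m A + 1), (if k = 0 then 2 * (g i (u i) : ℤ) - (g i (u i) : ℤ) ^ 2 else 0) = _
    rw [sum_ite_eq', if_pos (mem_univ _)]
  have h2 : ∑ i : Fin m, ∑ k : Fin (nw m A), bon g (tst X u i k) =
      -((∑ i, (g i (u i) : ℤ)) ^ 2 - ∑ i, (g i (u i) : ℤ) ^ 2) := by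
    rw [← sum_offdiag (fun i => (g i (u i) : ℤ)), sum_comm, sum_filter]
    have h3 : ∀ k : Fin (nw m A), ∑ i : Fin m, bon g (tst X u i k) =
        -(if ws k ≠ wt k ∧ (u (ws k) : ℕ) + A = u (wt k) + we k then
          (g (ws k) (u (ws k)) : ℤ) * g (wt k) (u (wt k)) else 0) := by
      intro k
      rw [sum_congr rfl fun i _ => bon_tst g u i k, sum_neg_distrib, sum_ite_eq', if_pos (mem_univ _)]
    rw [sum_congr rfl fun k _ => h3 k, sum_neg_distrib]
    congr 1
    rw [← Equiv.sum_comp (dec m A).symm, Fintype.sum_prod_type]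
    refine sum_congr rfl fun p _ => ?_
    simp only [ws_symm, wt_symm, we_symm]
    by_cases hp : p.1 ≠ p.2
    · rw [if_pos hp]
      rw [sum_eq_single (⟨u p.1 + A - u p.2, by have := (u p.1).2; have := (u p.2).2; omega⟩ : Fin (2 * A))]
      · rw [if_pos]
        refine ⟨hp, ?_⟩
        have := (u p.2).2
        show ((u p.1 : Fin A) : ℕ) + A = (u p.2 : Fin A) + ((u p.1 : Fin A) + A - (u p.2 : Fin A))
        omega
      · intro e _ he
        rw [if_neg]
        rintro ⟨_, h4⟩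
        refine he (Fin.ext ?_)
        show (e : ℕ) = (u p.1 : Fin A) + A - (u p.2 : Fin A)
        omega
      · intro h
        exact absurd (mem_univ _) h
    · rw [if_neg hp]
      refine sum_eq_zero fun e _ => ?_
      rw [if_neg fun h => hp h.1]
  rw [h1, h2]
  ring

end Pool.Agent.Lib.MP_f25cb6_lc.Lp
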