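import Pool.Agent.Lib.MP_f25cb6_lc.Lp.Abs
import Pool.Agent.Lib.MP_f25cb6_lc.Lp.Hon

/-!
# Linear programs and dynamic programs for interval scheduling are large
-/

set_option autoImplicit false

namespace Pool.Agent.Lib.MP_f25cb6_lc.Lp

open Finset

section hard

variable {m A X : ℕ} {i0 : Fin m}

theorem feasible_sys {T : Finset (Jb m A (nw m A) X)} :
    Feasible (sys X i0) T ↔ ∃ σ, Sch i0 T σ :=
  ⟨fun ⟨σ, h1, h2⟩ => ⟨σ, h1, h2⟩, fun ⟨σ, h⟩ => ⟨σ, h.elig, h.dis⟩⟩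

private theorem bon_ge (g : Fin m → Fin A → ℕ) {B : ℕ} (hg : ∀ i u, g i u ≤ B) (j : Jb m A (nw m A) X) :
    -((A * B ^ 2 + B ^ 2 : ℕ) : ℤ) ≤ bon g j := by
  have hz : -((A * B ^ 2 + B ^ 2 : ℕ) : ℤ) ≤ 0 := neg_nonpos.2 (Int.natCast_nonneg _)
  have hpr : ∀ i u i' u', g i u * g i' u' ≤ B ^ 2 := by
    intro i u i' u'
    rw [sq]
    exact Nat.mul_le_mul (hg i u) (hg i' u')
  rcases j with ⟨i, u, k⟩ | ⟨i, u, k⟩ | ⟨k, x⟩ | d
  · by_cases hk : k = 0
    · unfold bon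
      simp only [hk, if_true]
      have h1 : ((g i u : ℕ) : ℤ) ≤ B := by exact_mod_cast hg i u
      have h2 : (0 : ℤ) ≤ g i u := Int.natCast_nonneg _
      have h3 : (0 : ℤ) ≤ ((A * B ^ 2 : ℕ) : ℤ) := Int.natCast_nonneg _
      push_cast at h3 ⊢
      nlinarith
    · unfold bon
      simp only [if_neg hk]
      exact hz
  · show -((A * B ^ 2 + B ^ 2 : ℕ) : ℤ) ≤ -(pen g i u k : ℤ)
    have h1 : pen g i u k ≤ A * B ^ 2 := by
      unfold pen
      split_ifs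
      · exact Nat.zero_le _
      · refine (sum_le_sum (g := fun _ => B ^ 2) fun y _ => ?_).trans ?_
        · split_ifs
          · exact hpr _ _ _ _
          · exact Nat.zero_le _
        · rw [sum_const, card_univ, Fintype.card_fin, smul_eq_mul]
      · refine (sum_le_sum (g := fun _ => B ^ 2) fun y _ => ?_).trans ?_
        · split_ifs
          · exact hpr _ _ _ _
          · exact Nat.zero_le _
        · rw [sum_const, card_univ, Fintype.card_fin, smul_eq_mul]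
      · exact Nat.zero_le _
    have h2 : pen g i u k ≤ A * B ^ 2 + B ^ 2 := h1.trans (Nat.le_add_right _ _)
    have h3 : (pen g i u k : ℤ) ≤ ((A * B ^ 2 + B ^ 2 : ℕ) : ℤ) := by exact_mod_cast h2
    linarith
  · exact hz
  · exact hz

/-- the lengths of the jobs -/
theorem len_job (hA : 0 < A) (j : Jb m A (nw m A) X) : due j - rel j ≤ 12 * A := by
  rcases j with ⟨i, u, k⟩ | ⟨i, u, k⟩ | ⟨k, x⟩ | d
  · have h1 : tn i u k ≤ 6 * A * (k + 2) := by
      by_cases h : (k : ℕ) < nw m A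
      · have e1 : tn i u k = tau i u ⟨k, h⟩ := tn_of_lt i u ⟨k, h⟩
        rw [e1]
        have : tau i u ⟨k, h⟩ + 2 < 6 * A * ((k : ℕ) + 2) := tau_lt i u ⟨k, h⟩
        omega
      · rw [tn_of_ge i u (by omega)]
        unfold en
        exact Nat.mul_le_mul_left _ (by omega)
    rw [due_L, rel_L]
    by_cases hk : (k : ℕ) = 0
    · rw [if_pos hk]
      rw [hk] at h1 ⊢
      omega
    · rw [if_neg hk]
      have h2 : (k : ℕ) - 1 < nw m A := by have := k.2; omega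
      have e2 : tn i u (k - 1) = tau i u ⟨k - 1, h2⟩ := tn_of_lt i u ⟨(k : ℕ) - 1, h2⟩
      have h3 : 6 * A * ((k : ℕ) - 1 + 1) ≤ tau i u ⟨k - 1, h2⟩ := le_tau i u ⟨(k : ℕ) - 1, h2⟩
      have h4 : (k : ℕ) - 1 + 1 = k := by omega
      rw [h4] at h3
      have h5 : 6 * A * ((k : ℕ) + 2) = 6 * A * k + 12 * A := by ring
      rw [e2]
      omega
  · rw [due_P, rel_P]
    omega
  · rw [due_Z]
    omega
  · rw [due_X, rel_X]
    omega

end hard

variable {m l X : ℕ}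

/-- the states are the subsets of a set with `l` elements -/
noncomputable def sts (l : ℕ) : Fin (2 ^ l) ≃ Finset (Fin l) :=
  (Fintype.equivFinOfCardEq (by rw [Fintype.card_finset, Fintype.card_fin])).symm

/-- the number of common elements on machine `i` -/
noncomputable def gg (a : Finset (Fin m × Fin l)) (i : Fin m) (u : Fin (2 ^ l)) : ℕ :=
  (univ.filter (fun x : Fin l => (i, x) ∈ a ∧ x ∈ sts l u)).card

/-- the states of a set -/
noncomputable def ub (b : Finset (Fin m × Fin l)) (i : Fin m) : Fin (2 ^ l) :=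
  (sts l).symm (univ.filter (fun x : Fin l => (i, x) ∈ b))

theorem sum_gg (a b : Finset (Fin m × Fin l)) : ∑ i, gg a i (ub b i) = (a ∩ b).card := by
  have h1 : (a ∩ b).card = ∑ p : Fin m × Fin l, if p ∈ a ∩ b then 1 else 0 := by
    rw [sum_boole, Nat.cast_id]
    congr 1
    ext p
    simp
  rw [h1, Fintype.sum_prod_type]
  refine sum_congr rfl fun i _ => ?_
  unfold gg ub
  rw [sum_boole, Nat.cast_id]
  congr 1
  ext x
  simp

theorem gg_le (a : Finset (Fin m × Fin l)) (i : Fin m) (u : Fin (2 ^ l)) : gg a i u ≤ l := by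
  unfold gg
  refine (card_le_univ _).trans ?_
  rw [Fintype.card_fin]

/-- the factor of the lengths -/
def lam (m l : ℕ) : ℕ := m * 2 ^ l + (2 ^ l * l ^ 2 + l ^ 2)

/-- the weights -/
noncomputable def wgt (X : ℕ) (a : Finset (Fin m × Fin l)) (j : Jb m (2 ^ l) (nw m (2 ^ l)) X) : ℕ :=
  ((lam m l : ℤ) * ((due j - rel j : ℕ) : ℤ) + bon (gg a) j).toNat

theorem wgt_cast (a : Finset (Fin m × Fin l)) (j : Jb m (2 ^ l) (nw m (2 ^ l)) X) :
    ((wgt X a j : ℕ) : ℤ) = (lam m l : ℤ) * ((due j - rel j : ℕ) : ℤ) + bon (gg a) j := by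
  unfold wgt
  rw [Int.toNat_of_nonneg]
  have h1 := bon_ge (gg a) (gg_le a) j
  have h2 : 1 ≤ due j - rel j := by
    have := rel_lt_due j
    omega
  have h3 : (1 : ℤ) ≤ ((due j - rel j : ℕ) : ℤ) := by exact_mod_cast h2
  have h4 : ((2 ^ l * l ^ 2 + l ^ 2 : ℕ) : ℤ) ≤ lam m l := by
    unfold lam
    exact_mod_cast Nat.le_add_left _ _
  have h5 : (0 : ℤ) ≤ lam m l := Int.natCast_nonneg _
  nlinarith

theorem wgt_sum (a : Finset (Fin m × Fin l)) (T : Finset (Jb m (2 ^ l) (nw m (2 ^ l)) X)) :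
    ((∑ j ∈ T, wgt X a j : ℕ) : ℤ) =
      ∑ j ∈ T, ((lam m l : ℤ) * ((due j - rel j : ℕ) : ℤ) + bon (gg a) j) := by
  rw [Nat.cast_sum]
  exact sum_congr rfl fun j _ => wgt_cast a j

theorem wgt_le (a : Finset (Fin m × Fin l)) (j : Jb m (2 ^ l) (nw m (2 ^ l)) X) :
    wgt X a j ≤ lam m l * (12 * 2 ^ l) + 1 := by
  have h1 := wgt_cast a j
  have h2 := bon_le_one (gg a) j
  have h3 : lam m l * (due j - rel j) ≤ lam m l * (12 * 2 ^ l) :=
    Nat.mul_le_mul_left _ (len_job (by positivity) j)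
  have h4 : (lam m l : ℤ) * ((due j - rel j : ℕ) : ℤ) ≤ ((lam m l * (12 * 2 ^ l) : ℕ) : ℤ) := by
    exact_mod_cast h3
  have h5 : ((wgt X a j : ℕ) : ℤ) ≤ ((lam m l * (12 * 2 ^ l) + 1 : ℕ) : ℤ) := by
    rw [h1]
    push_cast at h4 ⊢
    linarith
  exact_mod_cast h5

/-- **The slacks of the system contain the unique disjointness matrix.** -/
noncomputable def hardSys (l X W : ℕ) (i0 : Fin m) (hW : lam m l * (12 * 2 ^ l) + 1 ≤ W) :
    Hard (sys (A := 2 ^ l) X i0) W (Fin m × Fin l) where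
  S b := hon X (ub b)
  w a := wgt X a
  β _ := lam m l * (m * en m (2 ^ l)) + 1
  small a j := (wgt_le a j).trans hW
  feas b := feasible_sys.2 ⟨_, hon_sch i0 (ub b)⟩
  maxl b T hT hsub := by
    obtain ⟨σ, hσ⟩ := feasible_sys.1 hT
    have h1 := len_le (by positivity) hσ
    rw [← hon_len (X := X) (ub b)] at h1
    have h2 : ∑ j ∈ T \ hon X (ub b), (due j - rel j) + ∑ j ∈ hon X (ub b), (due j - rel j) =
        ∑ j ∈ T, (due j - rel j) := sum_sdiff hsub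
    have h3 : ∑ j ∈ T \ hon X (ub b), (due j - rel j) = 0 := by omega
    have h4 : T \ hon X (ub b) = ∅ := by
      rw [eq_empty_iff_forall_notMem]
      intro j hj
      have h5 := (sum_eq_zero_iff.1 h3) j hj
      have h6 := rel_lt_due j
      omega
    exact le_antisymm (sdiff_eq_empty_iff_subset.1 h4) hsub
  bound a T hT := by
    obtain ⟨σ, hσ⟩ := feasible_sys.1 hT
    have h1 := upper (by positivity) (gg a) hσ (Λ := lam m l) (by
      unfold lam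
      exact Nat.le_add_right _ _)
    rw [← wgt_sum] at h1
    exact_mod_cast h1
  one a b hab := by
    have h1 := hon_sum (X := X) (gg a) (ub b) (lam m l)
    rw [← wgt_sum, ← Nat.cast_sum, sum_gg, hab] at h1
    have h2 : ((∑ j ∈ hon X (ub b), wgt X a j : ℕ) : ℤ) = ((lam m l * (m * en m (2 ^ l)) + 1 : ℕ) : ℤ) := by
      rw [h1]
      push_cast
      ring
    exact_mod_cast h2
  zero a b hab := by
    have h1 := hon_sum (X := X) (gg a) (ub b) (lam m l)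
    have h0 : (a ∩ b).card = 0 := by
      rw [disjoint_iff_inter_eq_empty.1 hab, card_empty]
    rw [← wgt_sum, ← Nat.cast_sum, sum_gg, h0] at h1
    have h2 : ((∑ j ∈ hon X (ub b), wgt X a j : ℕ) : ℤ) = ((lam m l * (m * en m (2 ^ l)) : ℕ) : ℤ) := by
      rw [h1]
      push_cast
      ring
    have h3 : ∑ j ∈ hon X (ub b), wgt X a j = lam m l * (m * en m (2 ^ l)) := by exact_mod_cast h2
    rw [h3]
    exact Nat.lt_succ_self _

/-! ### renaming the jobs -/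

/-- the system with renamed jobs -/
def Jobs.pull {J K : Type} (I : Jobs m J) (e : K ≃ J) : Jobs m K where
  release k := I.release (e k)
  due k := I.due (e k)
  pos k := I.pos (e k)
  elig k := I.elig (e k)

theorem feasible_pull {J K : Type} {I : Jobs m J} {e : K ≃ J} {T : Finset K} :
    Feasible (I.pull e) T ↔ Feasible I (T.map e.toEmbedding) := by
  constructor
  · rintro ⟨σ, h1, h2⟩
    refine ⟨fun j => σ (e.symm j), fun j hj => ?_, fun j hj j' hj' hne hs => ?_⟩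
    · rw [mem_map_equiv] at hj
      have h3 : σ (e.symm j) ∈ I.elig (e (e.symm j)) := h1 _ hj
      rw [Equiv.apply_symm_apply] at h3
      exact h3
    · rw [mem_map_equiv] at hj hj'
      have h3 : I.due (e (e.symm j)) ≤ I.release (e (e.symm j')) ∨
          I.due (e (e.symm j')) ≤ I.release (e (e.symm j)) :=
        h2 _ hj _ hj' (fun h => hne (e.symm.injective h)) hs
      rw [Equiv.apply_symm_apply, Equiv.apply_symm_apply] at h3
      exact h3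
  · rintro ⟨σ, h1, h2⟩
    refine ⟨fun k => σ (e k), fun k hk => h1 _ (mem_map_of_mem _ hk), fun k hk k' hk' hne hs => ?_⟩
    exact h2 _ (mem_map_of_mem _ hk) _ (mem_map_of_mem _ hk') (fun h => hne (e.injective h)) hs

/-- hard systems stay hard -/
def Hard.pull {J K α : Type} [DecidableEq α] {I : Jobs m J} {W : ℕ} (H : Hard I W α) (e : K ≃ J) :
    Hard (I.pull e) W α where
  S b := (H.S b).map e.symm.toEmbedding
  w a k := H.w a (e k)
  β := H.β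
  small a k := H.small a (e k)
  feas b := by
    rw [feasible_pull, map_map]
    have : (e.symm.toEmbedding.trans e.toEmbedding) = Function.Embedding.refl J := by
      ext j
      simp
    rw [this, map_refl]
    exact H.feas b
  maxl b T hT hsub := by
    rw [feasible_pull] at hT
    have h1 : H.S b ⊆ T.map e.toEmbedding := by
      intro j hj
      rw [mem_map_equiv]
      exact hsub (mem_map_of_mem _ hj)
    have h2 := H.maxl b _ hT h1
    rw [← h2, map_map]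
    have : (e.toEmbedding.trans e.symm.toEmbedding) = Function.Embedding.refl K := by
      ext j
      simp
    rw [this, map_refl]
  bound a T hT := by
    rw [feasible_pull] at hT
    have := H.bound a _ hT
    rwa [sum_map] at this
  one a b hab := by
    rw [sum_map]
    simp only [Equiv.coe_toEmbedding, Equiv.apply_symm_apply]
    exact H.one a b hab
  zero a b hab := by
    rw [sum_map]
    simp only [Equiv.coe_toEmbedding, Equiv.apply_symm_apply]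
    exact H.zero a b hab

/-! ### numbers -/

private theorem arith {m l n t : ℕ} (hm : 1 ≤ m) (h1 : 2268 * m ^ 3 * 64 ^ l ≤ 81 ^ l)
    (hn : n ≤ 28 * m ^ 3 * 4 ^ l) (ht : 3 ^ (m * l) ≤ 3 * t * 2 ^ (m * l)) : n ^ m ≤ t ^ 4 := by
  have e1 : 81 ^ (m * l) ≤ 81 * t ^ 4 * 16 ^ (m * l) := by
    have := Nat.pow_le_pow_left ht 4
    have h81 : (81 : ℕ) = 3 ^ 4 := by norm_num
    calc 81 ^ (m * l) = (3 ^ (m * l)) ^ 4 := by rw [h81, ← pow_mul, ← pow_mul, mul_comm]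
      _ ≤ (3 * t * 2 ^ (m * l)) ^ 4 := this
      _ = 81 * t ^ 4 * 16 ^ (m * l) := by
          rw [mul_pow, mul_pow, ← pow_mul, mul_comm (m * l) 4, pow_mul]
          norm_num
  have e2 : n ^ m * (81 * 16 ^ (m * l)) ≤ 81 ^ (m * l) := by
    calc n ^ m * (81 * 16 ^ (m * l)) ≤ (28 * m ^ 3 * 4 ^ l) ^ m * (81 ^ m * 16 ^ (m * l)) := by
          refine Nat.mul_le_mul (Nat.pow_le_pow_left hn m) (Nat.mul_le_mul_right _ ?_)
          calc 81 = 81 ^ 1 := (pow_one _).symm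
            _ ≤ 81 ^ m := Nat.pow_le_pow_right (by norm_num) hm
      _ = (2268 * m ^ 3 * 64 ^ l) ^ m := by
          have h3 : (16 : ℕ) ^ (m * l) = (16 ^ l) ^ m := by rw [← pow_mul, mul_comm]
          have h4 : (64 : ℕ) ^ l = 4 ^ l * 16 ^ l := by
            rw [← mul_pow]
            norm_num
          rw [h3, ← mul_pow, ← mul_pow, h4]
          congr 1
          ring
      _ ≤ (81 ^ l) ^ m := Nat.pow_le_pow_left h1 m
      _ = 81 ^ (m * l) := by rw [← pow_mul, mul_comm]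
  have e3 : n ^ m * (81 * 16 ^ (m * l)) ≤ t ^ 4 * (81 * 16 ^ (m * l)) := by
    refine (e2.trans e1).trans (le_of_eq ?_)
    ring
  exact Nat.le_of_mul_le_mul_right e3 (by positivity)

private theorem exists_l0 (m : ℕ) : ∃ l0, 1 ≤ l0 ∧ ∀ l, l0 ≤ l → 2268 * m ^ 3 * 64 ^ l ≤ 81 ^ l := by
  obtain ⟨c, hc⟩ : ∃ c, c = 2268 * m ^ 3 := ⟨_, rfl⟩
  -- `(81 / 64) ^ l ≥ 1 + l / 4`
  have hb : ∀ l : ℕ, (4 + l) * 64 ^ l ≤ 4 * 81 ^ l := by
    intro l
    induction l with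
    | zero => simp
    | succ l ih =>
      rw [pow_succ, pow_succ]
      have h1 : (4 + (l + 1)) * (64 ^ l * 64) = 64 * ((4 + l) * 64 ^ l) + 64 * 64 ^ l := by ring
      have h2 : 64 ^ l ≤ 81 ^ l := Nat.pow_le_pow_left (by norm_num) l
      rw [h1]
      calc 64 * ((4 + l) * 64 ^ l) + 64 * 64 ^ l ≤ 64 * (4 * 81 ^ l) + 64 * 81 ^ l :=
            Nat.add_le_add (Nat.mul_le_mul_left _ ih) (Nat.mul_le_mul_left _ h2)
        _ = 320 * 81 ^ l := by ring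
        _ ≤ 324 * 81 ^ l := Nat.mul_le_mul_right _ (by norm_num)
        _ = 4 * (81 ^ l * 81) := by ring
  refine ⟨4 * c + 1, by omega, fun l hl => ?_⟩
  rw [← hc]
  have h1 := hb l
  have h2 : 4 * c * 64 ^ l ≤ (4 + l) * 64 ^ l := Nat.mul_le_mul_right _ (by omega)
  have h3 : 4 * (c * 64 ^ l) ≤ 4 * 81 ^ l := by
    rw [← mul_assoc]
    exact h2.trans h1
  exact Nat.le_of_mul_le_mul_left h3 (by norm_num)

private theorem card_le {m l : ℕ} (hm : 1 ≤ m) :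
    m * (2 ^ l * (nw m (2 ^ l) + 1)) + m * (2 ^ l * nw m (2 ^ l)) + nw m (2 ^ l) * 2 ^ l ≤ 7 * m ^ 3 * 4 ^ l := by
  have h4 : (4 : ℕ) ^ l = 2 ^ l * 2 ^ l := by
    rw [← mul_pow]
    norm_num
  rw [h4]
  obtain ⟨a, ha⟩ : ∃ a, a = 2 ^ l := ⟨_, rfl⟩
  have ha1 : 1 ≤ a := by rw [ha]; exact Nat.one_le_two_pow
  unfold nw
  rw [← ha]
  have h1 : m * (a * (m * m * (2 * a) + 1)) + m * (a * (m * m * (2 * a))) + m * m * (2 * a) * a =
      4 * (m ^ 3 * (a * a)) + m * a + 2 * (m * m * (a * a)) := by ring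
  have h2 : m * a ≤ m ^ 3 * (a * a) := by
    refine Nat.mul_le_mul ?_ ?_
    · calc m = m ^ 1 := (pow_one m).symm
        _ ≤ m ^ 3 := Nat.pow_le_pow_right hm (by norm_num)
    · exact Nat.le_mul_of_pos_left a ha1
  have h3 : m * m * (a * a) ≤ m ^ 3 * (a * a) := by
    refine Nat.mul_le_mul_right _ ?_
    rw [← sq]
    exact Nat.pow_le_pow_right hm (by norm_num)
  rw [h1]
  nlinarith

private theorem weight_le {m l n : ℕ} (hm : 1 ≤ m) (hn : 7 * m ^ 3 * 4 ^ l ≤ n) :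
    lam m l * (12 * 2 ^ l) + 1 ≤ n ^ 2 := by
  have h4 : (4 : ℕ) ^ l = 2 ^ l * 2 ^ l := by
    rw [← mul_pow]
    norm_num
  obtain ⟨a, ha⟩ : ∃ a, a = 2 ^ l := ⟨_, rfl⟩
  have ha1 : 1 ≤ a := by rw [ha]; exact Nat.one_le_two_pow
  have hla : l ≤ a := by rw [ha]; exact (Nat.lt_two_pow_self).le
  rw [h4, ← ha] at hn
  unfold lam
  rw [← ha]
  have h1 : (7 * m ^ 3 * (a * a)) ^ 2 ≤ n ^ 2 := Nat.pow_le_pow_left hn 2
  have h2 : (7 * m ^ 3 * (a * a)) ^ 2 = 49 * (m ^ 6 * (a ^ 2 * a ^ 2)) := by ring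
  have hl2 : l ^ 2 ≤ a ^ 2 := Nat.pow_le_pow_left hla 2
  have hm6 : m ≤ m ^ 6 := by
    calc m = m ^ 1 := (pow_one m).symm
      _ ≤ m ^ 6 := Nat.pow_le_pow_right hm (by norm_num)
  have hm1 : 1 ≤ m ^ 6 := Nat.one_le_pow _ _ hm
  have ha2 : 1 ≤ a ^ 2 := Nat.one_le_pow _ _ ha1
  have haa : a ≤ a ^ 2 := by rw [sq]; exact Nat.le_mul_of_pos_left a ha1
  -- the four parts
  have p1 : m * a ^ 2 ≤ m ^ 6 * (a ^ 2 * a ^ 2) :=
    Nat.mul_le_mul hm6 (Nat.le_mul_of_pos_left _ ha2)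
  have p2 : a ^ 2 * l ^ 2 ≤ m ^ 6 * (a ^ 2 * a ^ 2) := by
    calc a ^ 2 * l ^ 2 ≤ 1 * (a ^ 2 * a ^ 2) := by rw [one_mul]; exact Nat.mul_le_mul_left _ hl2
      _ ≤ m ^ 6 * (a ^ 2 * a ^ 2) := Nat.mul_le_mul_right _ hm1
  have p3 : a * l ^ 2 ≤ m ^ 6 * (a ^ 2 * a ^ 2) :=
    (Nat.mul_le_mul_right _ haa).trans p2
  have p4 : 1 ≤ m ^ 6 * (a ^ 2 * a ^ 2) := Nat.mul_pos hm1 (Nat.mul_pos ha2 ha2)
  have e1 : (m * a + (a * l ^ 2 + l ^ 2)) * (12 * a) + 1 =
      12 * (m * a ^ 2) + 12 * (a ^ 2 * l ^ 2) + 12 * (a * l ^ 2) + 1 := by ring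
  rw [e1]
  rw [h2] at h1
  omega

/-- **Main theorem.** -/
theorem main (m : ℕ) (hm : 1 ≤ m) : ∃ n₀ : ℕ, ∀ n, n₀ ≤ n → ∃ I : Jobs m (Fin n),
    (∀ j, (I.elig j).card ≤ 2) ∧
    (∀ (r : ℕ) (Q : LP (Fin n) r), Q.Solves I (n ^ 2) → n ^ m ≤ r ^ 4) ∧
    ∀ (s : ℕ) (C : Circuit (Fin n) s), C.Solves I (n ^ 2) → n ^ m ≤ s ^ 4 := by
  classical
  obtain ⟨l0, hl0, hl⟩ := exists_l0 m
  refine ⟨7 * m ^ 3 * 4 ^ l0, fun n hn => ?_⟩
  have hm3 : 0 < 7 * m ^ 3 := by positivity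
  obtain ⟨l, hle, hlt⟩ : ∃ l, 7 * m ^ 3 * 4 ^ l ≤ n ∧ n < 7 * m ^ 3 * 4 ^ (l + 1) := by
    have h0 : n / (7 * m ^ 3) ≠ 0 := by
      have : 1 ≤ n / (7 * m ^ 3) := by
        rw [Nat.le_div_iff_mul_le hm3, one_mul]
        refine le_trans ?_ hn
        exact Nat.le_mul_of_pos_right _ (by positivity)
      omega
    refine ⟨Nat.log 4 (n / (7 * m ^ 3)), ?_, ?_⟩
    · have h1 := Nat.pow_log_le_self 4 h0
      rw [Nat.le_div_iff_mul_le hm3] at h1
      rw [mul_comm]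
      exact h1
    · have h1 := Nat.lt_pow_succ_log_self (b := 4) (by norm_num) (n / (7 * m ^ 3))
      rw [Nat.div_lt_iff_lt_mul hm3] at h1
      rw [mul_comm]
      exact h1
  have hll : l0 ≤ l := by
    by_contra h
    have h1 : l + 1 ≤ l0 := by omega
    have h2 : 7 * m ^ 3 * 4 ^ (l + 1) ≤ 7 * m ^ 3 * 4 ^ l0 :=
      Nat.mul_le_mul_left _ (Nat.pow_le_pow_right (by norm_num) h1)
    omega
  have hn28 : n ≤ 28 * m ^ 3 * 4 ^ l := by
    have : 7 * m ^ 3 * 4 ^ (l + 1) = 28 * m ^ 3 * 4 ^ l := by rw [pow_succ]; ring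
    omega
  obtain ⟨X, hX⟩ : ∃ X, n = m * (2 ^ l * (nw m (2 ^ l) + 1)) + m * (2 ^ l * nw m (2 ^ l)) +
      nw m (2 ^ l) * 2 ^ l + X := Nat.exists_eq_add_of_le ((card_le hm).trans hle)
  have hcard : Fintype.card (Fin n) = Fintype.card (Jb m (2 ^ l) (nw m (2 ^ l)) X) := by
    rw [Fintype.card_fin, card_Jb]
    exact hX
  have e : Fin n ≃ Jb m (2 ^ l) (nw m (2 ^ l)) X := Fintype.equivOfCardEq hcard
  have H := (hardSys l X (n ^ 2) (⟨0, hm⟩ : Fin m) (weight_le hm hle)).pull e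
  have hn7 : 7 ≤ n := by
    refine le_trans ?_ hle
    have h1 : 1 ≤ m ^ 3 * 4 ^ l := Nat.mul_pos (by positivity) (by positivity)
    have h2 : 7 * m ^ 3 * 4 ^ l = 7 * (m ^ 3 * 4 ^ l) := by ring
    omega
  have hn2 : n + 1 ≤ n ^ 2 := by nlinarith
  have hαc : Fintype.card (Fin m × Fin l) = m * l := by
    rw [Fintype.card_prod, Fintype.card_fin, Fintype.card_fin]
  have h32 : 2 ^ (m * l) < 3 ^ (m * l) := by
    refine Nat.pow_lt_pow_left (by norm_num) ?_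
    have : 1 ≤ l := hl0.trans hll
    have := Nat.mul_le_mul hm this
    omega
  refine ⟨(sys X (⟨0, hm⟩ : Fin m)).pull e, fun j => elg_card _ _, fun r Q hQ => ?_, fun s C hC => ?_⟩
  · have h1 := lp_lower H (by rw [Fintype.card_fin]; exact hn2) (by rw [Fintype.card_fin]; omega) hQ
    rw [hαc] at h1
    refine arith hm (hl l hll) hn28 (h1.trans (Nat.mul_le_mul_right _ ?_))
    rcases Nat.eq_zero_or_pos r with h2 | h2
    · exfalso
      rw [h2, zero_add, one_mul] at h1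
      omega
    · omega
  · have h1 := circuit_lower H (by omega) hC
    rw [hαc] at h1
    refine arith hm (hl l hll) hn28 (h1.trans (Nat.mul_le_mul_right _ ?_))
    have := C.out.2
    omega

/-- no bound `f(m) (n + 1) ^ c` -/
private theorem no_fpt (P : ∀ (m n : ℕ), Jobs m (Fin n) → ℕ → Prop)
    (hP : ∀ m, 1 ≤ m → ∃ n₀ : ℕ, ∀ n, n₀ ≤ n → ∃ I : Jobs m (Fin n), (∀ j, (I.elig j).card ≤ 2) ∧
      ∀ r, P m n I r → n ^ m ≤ r ^ 4) :
    ¬ ∃ (f : ℕ → ℕ) (c : ℕ), ∀ (m n : ℕ) (I : Jobs m (Fin n)), 1 ≤ m → (∀ j, (I.elig j).card ≤ 2) →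
      ∃ r, r ≤ f m * (n + 1) ^ c ∧ P m n I r := by
  rintro ⟨f, c, h⟩
  obtain ⟨n₀, hn₀⟩ := hP (4 * c + 1) (by omega)
  obtain ⟨n, hn⟩ : ∃ n, n = n₀ + (f (4 * c + 1)) ^ 4 * 2 ^ (4 * c) + 1 := ⟨_, rfl⟩
  obtain ⟨I, hI, hr⟩ := hn₀ n (by omega)
  obtain ⟨r, hr1, hr2⟩ := h (4 * c + 1) n I (by omega) hI
  have h1 := hr r hr2
  have hn1 : 1 ≤ n := by omega
  have h2 : r ^ 4 ≤ (f (4 * c + 1)) ^ 4 * 2 ^ (4 * c) * n ^ (4 * c) := by
    calc r ^ 4 ≤ (f (4 * c + 1) * (n + 1) ^ c) ^ 4 := Nat.pow_le_pow_left hr1 4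
      _ = (f (4 * c + 1)) ^ 4 * (n + 1) ^ (4 * c) := by rw [mul_pow, ← pow_mul, mul_comm c 4]
      _ ≤ (f (4 * c + 1)) ^ 4 * (2 * n) ^ (4 * c) :=
          Nat.mul_le_mul_left _ (Nat.pow_le_pow_left (by omega) _)
      _ = (f (4 * c + 1)) ^ 4 * 2 ^ (4 * c) * n ^ (4 * c) := by rw [mul_pow]; ring
  have h3 : n ^ (4 * c) * n ≤ n ^ (4 * c) * ((f (4 * c + 1)) ^ 4 * 2 ^ (4 * c)) := by
    rw [← pow_succ, mul_comm (n ^ (4 * c)) ((f (4 * c + 1)) ^ 4 * 2 ^ (4 * c))]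
    exact h1.trans h2
  have h4 : n ≤ (f (4 * c + 1)) ^ 4 * 2 ^ (4 * c) := Nat.le_of_mul_le_mul_left h3 (by positivity)
  omega

theorem no_lp : ¬ ∃ (f : ℕ → ℕ) (c : ℕ), ∀ (m n : ℕ) (I : Jobs m (Fin n)), 1 ≤ m →
    (∀ j, (I.elig j).card ≤ 2) →
      ∃ r, r ≤ f m * (n + 1) ^ c ∧ ∃ Q : LP (Fin n) r, Q.Solves I (n ^ 2) :=
  no_fpt (fun _ n I r => ∃ Q : LP (Fin n) r, Q.Solves I (n ^ 2)) fun m hm => by
    obtain ⟨n₀, h⟩ := main m hm
    refine ⟨n₀, fun n hn => ?_⟩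
    obtain ⟨I, h1, h2, _⟩ := h n hn
    exact ⟨I, h1, fun r ⟨Q, hQ⟩ => h2 r Q hQ⟩

theorem no_circuit : ¬ ∃ (f : ℕ → ℕ) (c : ℕ), ∀ (m n : ℕ) (I : Jobs m (Fin n)), 1 ≤ m →
    (∀ j, (I.elig j).card ≤ 2) →
      ∃ s, s ≤ f m * (n + 1) ^ c ∧ ∃ C : Circuit (Fin n) s, C.Solves I (n ^ 2) :=
  no_fpt (fun _ n I s => ∃ C : Circuit (Fin n) s, C.Solves I (n ^ 2)) fun m hm => by
    obtain ⟨n₀, h⟩ := main m hm
    refine ⟨n₀, fun n hn => ?_⟩
    obtain ⟨I, h1, _, h2⟩ := h n hn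
    exact ⟨I, h1, fun s ⟨C, hC⟩ => h2 s C hC⟩

end Pool.Agent.Lib.MP_f25cb6_lc.Lp
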