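import Pool.Agent.Lib.MP_f25cb6_lc.Lp.Defs

/-!
# The system of jobs

Every machine stores a number `u < A` as its delay; in the window with the number `k`, which belongs
to two machines `s`, `t` and a relative delay `e`, the unit jobs of these two machines fall on the
same interval if and only if `u s + A = u t + e`.
-/

set_option autoImplicit false

namespace Pool.Agent.Lib.MP_f25cb6_lc.Lp

/-- The jobs: the long jobs `L i u k` and the unit jobs `P i u k` of machine `i` in state `u`, the
shared unit jobs `Z k x`, and `X` jobs without use. -/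
inductive Jb (m A N X : ℕ)
  | L (i : Fin m) (u : Fin A) (k : Fin (N + 1))
  | P (i : Fin m) (u : Fin A) (k : Fin N)
  | Z (k : Fin N) (x : Fin A)
  | X (d : Fin X)
  deriving DecidableEq, Fintype

/-- the number of windows -/
abbrev nw (m A : ℕ) : ℕ := m * m * (2 * A)

/-- the windows -/
def dec (m A : ℕ) : Fin (nw m A) ≃ (Fin m × Fin m) × Fin (2 * A) :=
  finProdFinEquiv.symm.trans (Equiv.prodCongr finProdFinEquiv.symm (Equiv.refl _))

variable {m A X : ℕ}

/-- the first machine of a window -/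
def ws (k : Fin (nw m A)) : Fin m := (dec m A k).1.1

/-- the second machine of a window -/
def wt (k : Fin (nw m A)) : Fin m := (dec m A k).1.2

/-- the relative delay of a window -/
def we (k : Fin (nw m A)) : ℕ := ((dec m A k).2 : ℕ)

/-- the delay of machine `i` in a window -/
def sh (k : Fin (nw m A)) (i : Fin m) : ℕ := if i = ws k then A else if i = wt k then we k else 0

/-- the time of the unit job of machine `i` in state `u` in window `k` -/
def tau (i : Fin m) (u : Fin A) (k : Fin (nw m A)) : ℕ :=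
  6 * A * (k + 1) + 2 * (u + sh k i)

/-- the end of the schedule -/
def en (m A : ℕ) : ℕ := 6 * A * (nw m A + 1)

/-- the same for all numbers `k`, the end of the schedule for `k` too large -/
def tn (i : Fin m) (u : Fin A) (k : ℕ) : ℕ :=
  if h : k < nw m A then tau i u ⟨k, h⟩ else en m A

/-- the release dates -/
def rel : Jb m A (nw m A) X → ℕ
  | Jb.L i u k => if (k : ℕ) = 0 then 0 else tn i u (k - 1) + 1
  | Jb.P i u k => tau i u k
  | Jb.Z k x => 6 * A * (k + 1) + 2 * (x + A)
  | Jb.X _ => 0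

/-- the due dates -/
def due : Jb m A (nw m A) X → ℕ
  | Jb.L i u k => tn i u k
  | Jb.P i u k => tau i u k + 1
  | Jb.Z k x => 6 * A * (k + 1) + 2 * (x + A) + 1
  | Jb.X _ => 1

/-- the eligible machines -/
def elg (i0 : Fin m) : Jb m A (nw m A) X → Finset (Fin m)
  | Jb.L i _ _ => {i}
  | Jb.P i _ _ => {i}
  | Jb.Z k _ => {ws k, wt k}
  | Jb.X _ => {i0}

section eqns

variable (i : Fin m) (u x : Fin A) (k : Fin (nw m A)) (k' : Fin (nw m A + 1)) (d : Fin X)

theorem rel_L : rel (Jb.L i u k' : Jb m A (nw m A) X) = if (k' : ℕ) = 0 then 0 else tn i u (k' - 1) + 1 := rfl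

theorem rel_P : rel (Jb.P i u k : Jb m A (nw m A) X) = tau i u k := rfl

theorem rel_Z : rel (Jb.Z k x : Jb m A (nw m A) X) = 6 * A * (k + 1) + 2 * (x + A) := rfl

theorem rel_X : rel (Jb.X d : Jb m A (nw m A) X) = 0 := rfl

theorem due_L : due (Jb.L i u k' : Jb m A (nw m A) X) = tn i u k' := rfl

theorem due_P : due (Jb.P i u k : Jb m A (nw m A) X) = tau i u k + 1 := rfl

theorem due_Z : due (Jb.Z k x : Jb m A (nw m A) X) = rel (Jb.Z k x : Jb m A (nw m A) X) + 1 := rfl

theorem due_X : due (Jb.X d : Jb m A (nw m A) X) = 1 := rfl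

end eqns

theorem we_lt (k : Fin (nw m A)) : we k < 2 * A := (dec m A k).2.2

theorem sh_le (k : Fin (nw m A)) (i : Fin m) : sh k i + 1 ≤ 2 * A := by
  have h := we_lt k
  unfold sh
  split_ifs <;> omega

theorem tau_lt (i : Fin m) (u : Fin A) (k : Fin (nw m A)) : tau i u k + 2 < 6 * A * (k + 2) := by
  have h1 := sh_le k i
  have h2 := u.2
  unfold tau
  have h3 : 6 * A * ((k : ℕ) + 2) = 6 * A * (k + 1) + 6 * A := by ring
  rw [h3]
  omega

theorem le_tau (i : Fin m) (u : Fin A) (k : Fin (nw m A)) : 6 * A * (k + 1) ≤ tau i u k := by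
  unfold tau
  omega

theorem tau_even (i : Fin m) (u : Fin A) (k : Fin (nw m A)) : tau i u k % 2 = 0 := by
  unfold tau
  have h3 : 6 * A * ((k : ℕ) + 1) = 2 * (3 * A * (k + 1)) := by ring
  rw [h3]
  omega

theorem relZ_even (k : Fin (nw m A)) (x : Fin A) : rel (Jb.Z k x : Jb m A (nw m A) X) % 2 = 0 := by
  rw [rel_Z]
  have h3 : 6 * A * ((k : ℕ) + 1) = 2 * (3 * A * (k + 1)) := by ring
  rw [h3]
  omega

theorem tau_lt_en (i : Fin m) (u : Fin A) (k : Fin (nw m A)) : tau i u k + 2 < en m A := by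
  refine lt_of_lt_of_le (tau_lt i u k) ?_
  unfold en
  exact Nat.mul_le_mul_left _ (by have := k.2; omega)

theorem tau_mono (i : Fin m) (u u' : Fin A) {k k' : Fin (nw m A)} (h : k < k') :
    tau i u k + 2 < tau i u' k' := by
  refine lt_of_lt_of_le (tau_lt i u k) (le_trans ?_ (le_tau i u' k'))
  exact Nat.mul_le_mul_left _ (by have := Fin.lt_def.1 h; omega)

theorem tau_inj (i : Fin m) {u u' : Fin A} {k k' : Fin (nw m A)} (h : tau i u k = tau i u' k') :
    u = u' ∧ k = k' := by
  rcases lt_trichotomy k k' with h1 | h1 | h1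
  · have := tau_mono i u u' h1
    omega
  · subst h1
    refine ⟨?_, rfl⟩
    unfold tau at h
    exact Fin.ext (by omega)
  · have := tau_mono i u' u h1
    omega

theorem tn_of_lt (i : Fin m) (u : Fin A) (k : Fin (nw m A)) : tn i u k = tau i u k := by
  unfold tn
  rw [dif_pos k.2]

theorem tn_of_ge (i : Fin m) (u : Fin A) {k : ℕ} (h : nw m A ≤ k) : tn i u k = en m A := by
  unfold tn
  rw [dif_neg (by omega)]

/-- the numbers `tn` increase by more than two -/
theorem tn_mono (i : Fin m) (u : Fin A) {k k' : ℕ} (h : k < k') (hk : k' ≤ nw m A) :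
    tn i u k + 2 < tn i u k' := by
  have h1 : k < nw m A := by omega
  have e1 : tn i u k = tau i u ⟨k, h1⟩ := tn_of_lt i u ⟨k, h1⟩
  rw [e1]
  by_cases h2 : k' < nw m A
  · have e2 : tn i u k' = tau i u ⟨k', h2⟩ := tn_of_lt i u ⟨k', h2⟩
    rw [e2]
    exact tau_mono i u u (Fin.lt_def.2 h)
  · rw [tn_of_ge i u (by omega)]
    exact tau_lt_en i u _

theorem tn_pos (i : Fin m) (u : Fin A) {k : ℕ} (hk : k ≤ nw m A) : 1 < tn i u k := by
  have hA : 0 < A := lt_of_le_of_lt (Nat.zero_le _) u.2
  by_cases h : k < nw m A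
  · have e1 : tn i u k = tau i u ⟨k, h⟩ := tn_of_lt i u ⟨k, h⟩
    rw [e1]
    have h1 := le_tau i u ⟨k, h⟩
    have h2 : 6 * A * 1 ≤ 6 * A * ((⟨k, h⟩ : Fin (nw m A)) + 1) := Nat.mul_le_mul_left _ (by omega)
    omega
  · rw [tn_of_ge i u (by omega)]
    unfold en
    have h2 : 6 * A * 1 ≤ 6 * A * (nw m A + 1) := Nat.mul_le_mul_left _ (by omega)
    omega

theorem tn_le_en (i : Fin m) (u : Fin A) (k : ℕ) : tn i u k ≤ en m A := by
  unfold tn
  split_ifs with h
  · have := tau_lt_en i u ⟨k, h⟩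
    omega
  · exact le_rfl

theorem rel_lt_due (j : Jb m A (nw m A) X) : rel j < due j := by
  rcases j with ⟨i, u, k⟩ | ⟨i, u, k⟩ | ⟨k, x⟩ | d
  · unfold rel due
    by_cases hk : (k : ℕ) = 0
    · simp only [hk, if_true]
      have := tn_pos i u (k := 0) (Nat.zero_le _)
      omega
    · simp only [hk, if_false]
      have := tn_mono i u (k := (k : ℕ) - 1) (k' := k) (by omega) (by have := k.2; omega)
      omega
  · unfold rel due
    exact Nat.lt_succ_self _
  · unfold rel due
    exact Nat.lt_succ_self _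
  · unfold rel due
    exact Nat.lt_succ_self _

/-- `A` is positive if there is a job `Z`, and the end is at least `1` -/
theorem due_le_en (hA : 0 < A) (j : Jb m A (nw m A) X) : due j ≤ en m A := by
  rcases j with ⟨i, u, k⟩ | ⟨i, u, k⟩ | ⟨k, x⟩ | d
  · exact tn_le_en i u k
  · have := tau_lt_en i u k
    rw [due_P]
    omega
  · rw [due_Z, rel_Z]
    unfold en
    have h1 := x.2
    have h2 : 6 * A * ((k : ℕ) + 1) + 6 * A = 6 * A * (k + 2) := by ring
    have h3 : 6 * A * ((k : ℕ) + 2) ≤ 6 * A * (nw m A + 1) := Nat.mul_le_mul_left _ (by have := k.2; omega)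
    omega
  · rw [due_X]
    unfold en
    have h2 : 6 * A * 1 ≤ 6 * A * (nw m A + 1) := Nat.mul_le_mul_left _ (by omega)
    omega

/-- The system of jobs. -/
def sys (X : ℕ) (i0 : Fin m) : Jobs m (Jb m A (nw m A) X) where
  release := rel
  due := due
  pos := rel_lt_due
  elig := elg i0

theorem elg_card (i0 : Fin m) (j : Jb m A (nw m A) X) : (elg i0 j).card ≤ 2 := by
  rcases j with ⟨i, u, k⟩ | ⟨i, u, k⟩ | ⟨k, x⟩ | d
  · unfold elg
    simp
  · unfold elg
    simp
  · unfold elg
    exact Finset.card_le_two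
  · unfold elg
    simp

/-- the number of jobs -/
theorem card_Jb (m A N X : ℕ) : Fintype.card (Jb m A N X) = m * (A * (N + 1)) + m * (A * N) + N * A + X := by
  have e : Jb m A N X ≃ ((Fin m × Fin A × Fin (N + 1)) ⊕ (Fin m × Fin A × Fin N)) ⊕
      (Fin N × Fin A) ⊕ Fin X :=
    { toFun := fun j => match j with
        | Jb.L i u k => Sum.inl (Sum.inl (i, u, k))
        | Jb.P i u k => Sum.inl (Sum.inr (i, u, k))
        | Jb.Z k x => Sum.inr (Sum.inl (k, x))
        | Jb.X d => Sum.inr (Sum.inr d)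
      invFun := fun p => match p with
        | Sum.inl (Sum.inl (i, u, k)) => Jb.L i u k
        | Sum.inl (Sum.inr (i, u, k)) => Jb.P i u k
        | Sum.inr (Sum.inl (k, x)) => Jb.Z k x
        | Sum.inr (Sum.inr d) => Jb.X d
      left_inv := fun j => by cases j <;> rfl
      right_inv := fun p => by rcases p with (⟨i, u, k⟩ | ⟨i, u, k⟩) | ⟨k, x⟩ | d <;> rfl }
  rw [Fintype.card_congr e]
  simp only [Fintype.card_sum, Fintype.card_prod, Fintype.card_fin]
  ring

end Pool.Agent.Lib.MP_f25cb6_lc.Lp
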