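import Pool.Agent.Lib.MP_f25cb6_lc.Lp.Gd

/-!
# Schedules without idle time

The total length of a feasible set is at most `m` times the length of the schedule, and a machine
without idle time keeps its state.
-/

set_option autoImplicit false

namespace Pool.Agent.Lib.MP_f25cb6_lc.Lp

open Finset

variable {m A X : ℕ} {i0 : Fin m}

/-- the assignment `σ` schedules the jobs in `T` -/
structure Sch (i0 : Fin m) (T : Finset (Jb m A (nw m A) X)) (σ : Jb m A (nw m A) X → Fin m) : Prop where
  elig : ∀ j ∈ T, σ j ∈ elg i0 j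
  dis : ∀ j ∈ T, ∀ j' ∈ T, j ≠ j' → σ j = σ j' → due j ≤ rel j' ∨ due j' ≤ rel j

/-- machine `i` is never idle -/
def Full (T : Finset (Jb m A (nw m A) X)) (σ : Jb m A (nw m A) X → Fin m) (i : Fin m) : Prop :=
  ∀ x < en m A, ∃ j ∈ T, σ j = i ∧ rel j ≤ x ∧ x < due j

private theorem cover_card {T : Finset (Jb m A (nw m A) X)} {σ : Jb m A (nw m A) X → Fin m}
    (h : Sch i0 T σ) :
    (T.biUnion fun j => ({σ j} : Finset (Fin m)) ×ˢ Ico (rel j) (due j)).card = ∑ j ∈ T, (due j - rel j) := by
  rw [card_biUnion]
  · refine sum_congr rfl fun j _ => ?_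
    rw [card_product, card_singleton, one_mul, Nat.card_Ico]
  · intro j hj j' hj' hne
    show Disjoint (({σ j} : Finset (Fin m)) ×ˢ Ico (rel j) (due j)) (({σ j'} : Finset (Fin m)) ×ˢ Ico (rel j') (due j'))
    rw [disjoint_left]
    rintro ⟨i, x⟩ h1 h2
    rw [mem_product, mem_singleton, mem_Ico] at h1 h2
    rcases h.dis j hj j' hj' hne (h1.1.symm.trans h2.1) with h3 | h3
    · have := h1.2; have := h2.2; omega
    · have := h1.2; have := h2.2; omega

/-- The total length of the jobs is at most `m` times the length of the schedule. -/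
theorem len_le (hA : 0 < A) {T : Finset (Jb m A (nw m A) X)} {σ : Jb m A (nw m A) X → Fin m}
    (h : Sch i0 T σ) : ∑ j ∈ T, (due j - rel j) ≤ m * en m A := by
  rw [← cover_card h]
  refine (card_le_card (t := (univ : Finset (Fin m)) ×ˢ range (en m A)) fun p hp => ?_).trans ?_
  · rw [mem_biUnion] at hp
    obtain ⟨j, _, hp⟩ := hp
    rw [mem_product, mem_Ico] at hp
    refine mem_product.2 ⟨mem_univ _, mem_range.2 ?_⟩
    have := due_le_en hA j
    have := hp.2.2
    omega
  · rw [card_product, card_univ, Fintype.card_fin, card_range]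

/-- With an idle machine the total length is smaller. -/
theorem len_lt (hA : 0 < A) {T : Finset (Jb m A (nw m A) X)} {σ : Jb m A (nw m A) X → Fin m}
    (h : Sch i0 T σ) {i : Fin m} (hi : ¬ Full T σ i) : ∑ j ∈ T, (due j - rel j) + 1 ≤ m * en m A := by
  unfold Full at hi
  push Not at hi
  obtain ⟨x, hx, hi⟩ := hi
  rw [← cover_card h]
  have h1 : (T.biUnion fun j => ({σ j} : Finset (Fin m)) ×ˢ Ico (rel j) (due j)) ⊆
      ((univ : Finset (Fin m)) ×ˢ range (en m A)).erase (i, x) := by
    intro p hp
    rw [mem_biUnion] at hp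
    obtain ⟨j, hj, hp⟩ := hp
    rw [mem_product, mem_singleton, mem_Ico] at hp
    refine mem_erase.2 ⟨?_, mem_product.2 ⟨mem_univ _, mem_range.2 ?_⟩⟩
    · rintro rfl
      have := hi j hj hp.1.symm hp.2.1
      omega
    · have := due_le_en hA j
      have := hp.2.2
      omega
  have h2 := card_le_card h1
  rw [card_erase_of_mem (mem_product.2 ⟨mem_univ _, mem_range.2 hx⟩), card_product, card_univ,
    Fintype.card_fin, card_range] at h2
  have h3 : 0 < m * en m A := Nat.mul_pos (lt_of_le_of_lt (Nat.zero_le _) i.2) (lt_of_le_of_lt (Nat.zero_le _) hx)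
  omega

/-- the job belongs to machine `i` in state `u` -/
def Comp (i : Fin m) (u : Fin A) : Jb m A (nw m A) X → Prop
  | Jb.L i' u' _ => i' = i ∧ u' = u
  | Jb.P i' u' _ => i' = i ∧ u' = u
  | Jb.Z k x => rel (Jb.Z k x : Jb m A (nw m A) X) = tau i u k
  | Jb.X _ => False

/-- the window of a shared job is given by its time -/
theorem relZ_window {i : Fin m} {u x : Fin A} {k k' : Fin (nw m A)}
    (h : rel (Jb.Z k' x : Jb m A (nw m A) X) = tau i u k) : k' = k := by
  rw [rel_Z] at h
  have h1 := le_tau i u k
  have h2 := tau_lt i u k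
  have h3 := x.2
  have h4 : 6 * A * ((k' : ℕ) + 1) + 6 * A = 6 * A * (k' + 2) := by ring
  rcases lt_trichotomy k' k with h5 | h5 | h5
  · exfalso
    have h6 : 6 * A * ((k' : ℕ) + 2) ≤ 6 * A * (k + 1) := Nat.mul_le_mul_left _ (by
      have := Fin.lt_def.1 h5; omega)
    omega
  · exact h5
  · exfalso
    have h6 : 6 * A * ((k : ℕ) + 2) ≤ 6 * A * (k' + 1) := Nat.mul_le_mul_left _ (by
      have := Fin.lt_def.1 h5; omega)
    omega

private theorem relL_pos {i : Fin m} {u : Fin A} {k : Fin (nw m A + 1)}
    (h : 0 < rel (Jb.L i u k : Jb m A (nw m A) X)) :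
    ∃ k' : Fin (nw m A), (k : ℕ) = k' + 1 ∧ rel (Jb.L i u k : Jb m A (nw m A) X) = tau i u k' + 1 := by
  rw [rel_L] at h ⊢
  by_cases hk : (k : ℕ) = 0
  · rw [if_pos hk] at h
    exact absurd h (lt_irrefl 0)
  · rw [if_neg hk]
    have h1 : (k : ℕ) - 1 < nw m A := by have := k.2; omega
    refine ⟨⟨(k : ℕ) - 1, h1⟩, ?_, ?_⟩
    · show (k : ℕ) = (k : ℕ) - 1 + 1
      omega
    · rw [← tn_of_lt i u ⟨(k : ℕ) - 1, h1⟩]

/-- **A machine which is never idle keeps its state.** -/
theorem state (hA : 0 < A) {T : Finset (Jb m A (nw m A) X)} {σ : Jb m A (nw m A) X → Fin m}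
    (h : Sch i0 T σ) {i : Fin m} (hi : Full T σ i) :
    ∃ u : Fin A, Jb.L i u 0 ∈ T ∧ ∀ j ∈ T, σ j = i → Comp i u j := by
  have hen : 1 < en m A := by
    unfold en
    have : 6 * A * 1 ≤ 6 * A * (nw m A + 1) := Nat.mul_le_mul_left _ (by omega)
    omega
  have tpos : ∀ (i' : Fin m) (u : Fin A) (k : Fin (nw m A)), 5 < tau i' u k := by
    intro i' u k
    have h1 := le_tau i' u k
    have : 6 * A * 1 ≤ 6 * A * ((k : ℕ) + 1) := Nat.mul_le_mul_left _ (by omega)
    omega
  have zpos : ∀ (k : Fin (nw m A)) (x : Fin A), 5 < rel (Jb.Z k x : Jb m A (nw m A) X) := by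
    intro k x
    rw [rel_Z]
    have : 6 * A * 1 ≤ 6 * A * ((k : ℕ) + 1) := Nat.mul_le_mul_left _ (by omega)
    omega
  have hL : ∀ {i' : Fin m} {u : Fin A} {k : Fin (nw m A + 1)}, Jb.L i' u k ∈ T →
      σ (Jb.L i' u k) = i → i' = i := by
    intro i' u k hj hs
    have := h.elig _ hj
    rw [hs] at this
    exact (mem_singleton.1 this).symm
  have hP : ∀ {i' : Fin m} {u : Fin A} {k : Fin (nw m A)}, Jb.P i' u k ∈ T →
      σ (Jb.P i' u k) = i → i' = i := by
    intro i' u k hj hs
    have := h.elig _ hj
    rw [hs] at this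
    exact (mem_singleton.1 this).symm
  obtain ⟨j0, hj0, hs0, hr0, hd0⟩ := hi 0 (by omega)
  have hr0' : rel j0 = 0 := by omega
  -- the first job
  have hfirst : ∃ u : Fin A, j0 = Jb.L i u 0 := by
    rcases j0 with ⟨i', u, k⟩ | ⟨i', u, k⟩ | ⟨k, x⟩ | d
    · have h1 := hL hj0 hs0
      subst h1
      refine ⟨u, ?_⟩
      have h2 : (k : ℕ) = 0 := by
        by_contra hk
        rw [rel_L, if_neg hk] at hr0'
        omega
      rw [show k = 0 from Fin.ext h2]
    · rw [rel_P] at hr0'
      have := tpos i' u k
      omega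
    · have := zpos k x
      omega
    · exfalso
      obtain ⟨j1, hj1, hs1, hr1, hd1⟩ := hi 1 hen
      have hne : j1 ≠ Jb.X d := by
        rintro rfl
        rw [due_X] at hd1
        omega
      have h3 : rel j1 = 1 := by
        rcases h.dis j1 hj1 _ hj0 hne (hs1.trans hs0.symm) with h2 | h2
        · rw [rel_X] at h2
          omega
        · rw [due_X] at h2
          omega
      rcases j1 with ⟨i', u, k⟩ | ⟨i', u, k⟩ | ⟨k, x⟩ | d'
      · obtain ⟨k', _, h4⟩ := relL_pos (X := X) (i := i') (u := u) (k := k) (by rw [h3]; omega)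
        have := tpos i' u k'
        omega
      · rw [rel_P] at h3
        have := tpos i' u k
        omega
      · have := zpos k x
        omega
      · rw [rel_X] at h3
        omega
  obtain ⟨u, hu⟩ := hfirst
  subst hu
  refine ⟨u, hj0, ?_⟩
  have key : ∀ n : ℕ, ∀ j ∈ T, σ j = i → rel j = n → Comp i u j := by
    intro n
    induction n using Nat.strong_induction_on with
    | _ n ih =>
      intro j hj hs hr
      have hlt := rel_lt_due j
      by_cases hn : n = 0
      · by_cases hjj : j = Jb.L i u 0
        · rw [hjj]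
          exact ⟨rfl, rfl⟩
        · exfalso
          have h1 := rel_lt_due (Jb.L i u 0 : Jb m A (nw m A) X)
          rcases h.dis j hj _ hj0 hjj (hs.trans hs0.symm) with h2 | h2
          · omega
          · omega
      · have hend := due_le_en hA j
        obtain ⟨j', hj', hs', hr', hd'⟩ := hi (n - 1) (by omega)
        have hne : j' ≠ j := by
          rintro rfl
          omega
        have hdn : due j' = n := by
          rcases h.dis j' hj' j hj hne (hs'.trans hs.symm) with h2 | h2
          · omega
          · omega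
        have hc := ih (rel j') (by omega) j' hj' hs' rfl
        -- the job after the unit job of window `k`
        have after : ∀ k : Fin (nw m A), n = tau i u k + 1 → Comp i u j := by
          intro k hk
          have hev := tau_even i u k
          rcases j with ⟨i', u', k'⟩ | ⟨i', u', k'⟩ | ⟨k', x⟩ | d
          · have h1 := hL hj hs
            subst h1
            obtain ⟨k2, _, h4⟩ := relL_pos (X := X) (i := i') (u := u') (k := k') (by omega)
            refine ⟨rfl, (tau_inj i' (k := k2) (k' := k) ?_).1⟩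
            omega
          · exfalso
            have := tau_even i' u' k'
            rw [rel_P] at hr
            omega
          · exfalso
            have := relZ_even (X := X) k' x
            omega
          · exfalso
            rw [rel_X] at hr
            omega
        rcases j' with ⟨i', u', k'⟩ | ⟨i', u', k'⟩ | ⟨k', x'⟩ | d'
        · obtain ⟨rfl, rfl⟩ := hc
          rw [due_L] at hdn
          by_cases hk' : (k' : ℕ) < nw m A
          · have e1 : tn i' u' k' = tau i' u' ⟨k', hk'⟩ := tn_of_lt i' u' ⟨k', hk'⟩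
            rw [e1] at hdn
            have hev := tau_even i' u' ⟨k', hk'⟩
            rcases j with ⟨i2, u2, k2⟩ | ⟨i2, u2, k2⟩ | ⟨k2, x⟩ | d
            · exfalso
              obtain ⟨k3, _, h4⟩ := relL_pos (X := X) (i := i2) (u := u2) (k := k2) (by omega)
              have := tau_even i2 u2 k3
              omega
            · have h1 := hP hj hs
              subst h1
              rw [rel_P] at hr
              exact ⟨rfl, (tau_inj i2 (k := k2) (k' := ⟨k', hk'⟩) (by omega)).1⟩
            · show rel (Jb.Z k2 x : Jb m A (nw m A) X) = tau i' u' k2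
              have h5 : rel (Jb.Z k2 x : Jb m A (nw m A) X) = tau i' u' ⟨k', hk'⟩ := by omega
              have h6 := relZ_window h5
              rw [← h6] at h5
              exact h5
            · exfalso
              rw [rel_X] at hr
              omega
          · exfalso
            rw [tn_of_ge i' u' (by omega)] at hdn
            omega
        · obtain ⟨rfl, rfl⟩ := hc
          rw [due_P] at hdn
          exact after k' hdn.symm
        · have h5 : rel (Jb.Z k' x' : Jb m A (nw m A) X) = tau i u k' := hc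
          rw [due_Z, h5] at hdn
          exact after k' hdn.symm
        · exact hc.elim
  intro j hj hs
  exact key (rel j) j hj hs rfl

/-- In every window a machine which is never idle processes a unit job at the time of its state. -/
theorem test {T : Finset (Jb m A (nw m A) X)} {σ : Jb m A (nw m A) X → Fin m}
    {i : Fin m} (hi : Full T σ i) {u : Fin A} (hu : ∀ j ∈ T, σ j = i → Comp i u j) (k : Fin (nw m A)) :
    Jb.P i u k ∈ T ∨ ∃ x, Jb.Z k x ∈ T ∧ σ (Jb.Z k x) = i ∧ rel (Jb.Z k x : Jb m A (nw m A) X) = tau i u k := by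
  obtain ⟨j, hj, hs, hr, hd⟩ := hi (tau i u k) (by have := tau_lt_en i u k; omega)
  have hc := hu j hj hs
  rcases j with ⟨i', u', k'⟩ | ⟨i', u', k'⟩ | ⟨k', x⟩ | d
  · exfalso
    obtain ⟨rfl, rfl⟩ := hc
    rw [due_L] at hd
    have e1 := tn_of_lt i' u' k
    by_cases h1 : (k' : ℕ) ≤ k
    · rcases Nat.lt_or_eq_of_le h1 with h2 | h2
      · have := tn_mono i' u' h2 (le_of_lt k.2)
        omega
      · rw [h2] at hd
        omega
    · obtain ⟨k2, h2, h3⟩ := relL_pos (X := X) (i := i') (u := u') (k := k') (by
        rw [rel_L, if_neg (by omega)]; omega)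
      rcases lt_or_eq_of_le (show k ≤ k2 by rw [Fin.le_def]; omega) with h4 | h4
      · have := tau_mono i' u' u' h4
        omega
      · rw [h4] at hr
        omega
  · obtain ⟨rfl, rfl⟩ := hc
    rw [rel_P] at hr
    rw [due_P] at hd
    left
    have := (tau_inj i' (u := u') (u' := u') (k := k') (k' := k) (by omega)).2
    rwa [this] at hj
  · right
    have h5 : rel (Jb.Z k' x : Jb m A (nw m A) X) = tau i u k' := hc
    rw [due_Z] at hd
    have h6 : tau i u k' = tau i u k := by omega
    have h7 := (tau_inj i h6).2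
    subst h7
    exact ⟨x, hj, hs, h5⟩
  · exact hc.elim

end Pool.Agent.Lib.MP_f25cb6_lc.Lp
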