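import Pool.Agent.Lib.MP_f25cb6_lc.Lp.St

/-!
# The weights and the upper bound
-/

set_option autoImplicit false

namespace Pool.Agent.Lib.MP_f25cb6_lc.Lp

open Finset

variable {m A X : ℕ} {i0 : Fin m}

/-- the penalty of a unit job of its own of machine `i` -/
def pen (g : Fin m → Fin A → ℕ) (i : Fin m) (u : Fin A) (k : Fin (nw m A)) : ℕ :=
  if i = ws k then
    (if ws k = wt k then 0 else
      ∑ y : Fin A, if (u : ℕ) + A = y + we k then g i u * g (wt k) y else 0)
  else if i = wt k then ∑ x : Fin A, (if (x : ℕ) + A = u + we k then g (ws k) x * g i u else 0)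
  else 0

/-- the part of the weights which does not come from the lengths -/
def bon (g : Fin m → Fin A → ℕ) : Jb m A (nw m A) X → ℤ
  | Jb.L i u k => if k = 0 then 2 * (g i u : ℤ) - (g i u : ℤ) ^ 2 else 0
  | Jb.P i u k => -(pen g i u k : ℤ)
  | Jb.Z _ _ => 0
  | Jb.X _ => 0

/-- the first long jobs -/
def isL0 (j : Jb m A (nw m A) X) : Prop := ∃ i u, j = Jb.L i u 0

/-- the sum of the products over all pairs of different indices -/
theorem sum_offdiag (f : Fin m → ℤ) :
    ∑ p ∈ univ.filter (fun p : Fin m × Fin m => p.1 ≠ p.2), f p.1 * f p.2 = (∑ i, f i) ^ 2 - ∑ i, f i ^ 2 := by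
  rw [sum_filter, Fintype.sum_prod_type]
  have h1 : ∀ i, ∑ j, (if i ≠ j then f i * f j else 0) = f i * ∑ j, f j - f i ^ 2 := by
    intro i
    have h2 : ∀ j, (if i ≠ j then f i * f j else 0) = f i * f j - if j = i then f i ^ 2 else 0 := by
      intro j
      by_cases h : i = j
      · subst h
        simp
        ring
      · rw [if_pos h, if_neg (fun h' => h h'.symm), sub_zero]
    rw [sum_congr rfl fun j _ => h2 j, sum_sub_distrib, ← mul_sum, sum_ite_eq', if_pos (mem_univ i)]
  rw [sum_congr rfl fun i _ => h1 i, sum_sub_distrib, ← sum_mul]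
  ring

theorem bon_le_zero (g : Fin m → Fin A → ℕ) {j : Jb m A (nw m A) X} (hj : ¬ isL0 j) : bon g j ≤ 0 := by
  rcases j with ⟨i, u, k⟩ | ⟨i, u, k⟩ | ⟨k, x⟩ | d
  · have hk : k ≠ 0 := by
      rintro rfl
      exact hj ⟨i, u, rfl⟩
    unfold bon
    simp only [if_neg hk]
    exact le_rfl
  · unfold bon
    simp only
    omega
  · exact le_rfl
  · exact le_rfl

theorem bon_le_one (g : Fin m → Fin A → ℕ) (j : Jb m A (nw m A) X) : bon g j ≤ 1 := by
  by_cases hj : isL0 j
  · obtain ⟨i, u, rfl⟩ := hj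
    unfold bon
    simp only [if_true]
    nlinarith [sq_nonneg ((g i u : ℤ) - 1)]
  · exact (bon_le_zero g hj).trans (by norm_num)

theorem ws_symm (p : (Fin m × Fin m) × Fin (2 * A)) : ws ((dec m A).symm p) = p.1.1 := by
  unfold ws
  rw [Equiv.apply_symm_apply]

theorem wt_symm (p : (Fin m × Fin m) × Fin (2 * A)) : wt ((dec m A).symm p) = p.1.2 := by
  unfold wt
  rw [Equiv.apply_symm_apply]

theorem we_symm (p : (Fin m × Fin m) × Fin (2 * A)) : we ((dec m A).symm p) = p.2 := by
  unfold we
  rw [Equiv.apply_symm_apply]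

/-- the window of the machines `s`, `t` in which the unit jobs of the states `u`, `v` coincide -/
def wd (s t : Fin m) (u v : Fin A) : Fin (nw m A) :=
  (dec m A).symm ((s, t), ⟨u + A - v, by have := u.2; have := v.2; omega⟩)

theorem ws_wd (s t : Fin m) (u v : Fin A) : ws (wd s t u v) = s := ws_symm _

theorem wt_wd (s t : Fin m) (u v : Fin A) : wt (wd s t u v) = t := wt_symm _

theorem we_wd (s t : Fin m) (u v : Fin A) : (u : ℕ) + A = v + we (wd s t u v) := by
  unfold wd
  rw [we_symm]
  have := v.2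
  show (u : ℕ) + A = v + (u + A - v)
  omega

/-- the shared job of machine `s` in state `u` -/
theorem relZ_eq_iff_s {k : Fin (nw m A)} {x u : Fin A} :
    rel (Jb.Z k x : Jb m A (nw m A) X) = tau (ws k) u k ↔ x = u := by
  rw [rel_Z]
  unfold tau sh
  rw [if_pos rfl]
  constructor
  · intro h
    exact Fin.ext (by omega)
  · rintro rfl
    rfl

/-- the shared job of machine `t` in state `u` -/
theorem relZ_eq_iff_t {k : Fin (nw m A)} (hk : wt k ≠ ws k) {x u : Fin A} :
    rel (Jb.Z k x : Jb m A (nw m A) X) = tau (wt k) u k ↔ (x : ℕ) + A = u + we k := by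
  rw [rel_Z]
  unfold tau sh
  rw [if_neg hk, if_pos rfl]
  omega

/-- **The upper bound** for the weights of a feasible set. -/
theorem upper (hA : 0 < A) (g : Fin m → Fin A → ℕ) {T : Finset (Jb m A (nw m A) X)}
    {σ : Jb m A (nw m A) X → Fin m} (h : Sch i0 T σ) {Λ : ℕ} (hΛ : m * A ≤ Λ) :
    ∑ j ∈ T, ((Λ : ℤ) * ((due j - rel j : ℕ) : ℤ) + bon g j) ≤ Λ * (m * en m A : ℕ) + 1 := by
  classical
  rw [sum_add_distrib, ← mul_sum, ← Nat.cast_sum]
  have hsplit : ∑ j ∈ T, bon g j = ∑ j ∈ T.filter isL0, bon g j + ∑ j ∈ T.filter (fun j => ¬ isL0 j), bon g j :=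
    (sum_filter_add_sum_filter_not T isL0 _).symm
  by_cases hfull : ∀ i, Full T σ i
  · choose u hu0 hu using fun i => state hA h (hfull i)
    have hlen := len_le hA h
    have hlen' : (Λ : ℤ) * ((∑ j ∈ T, (due j - rel j) : ℕ) : ℤ) ≤ Λ * (m * en m A : ℕ) := by
      exact_mod_cast Nat.mul_le_mul_left Λ hlen
    -- the long jobs
    have hL : ∑ j ∈ T.filter isL0, bon g j = ∑ i, (2 * (g i (u i) : ℤ) - (g i (u i) : ℤ) ^ 2) := by
      have h1 : T.filter isL0 = univ.image (fun i => (Jb.L i (u i) 0 : Jb m A (nw m A) X)) := by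
        ext j
        rw [mem_filter, mem_image]
        constructor
        · rintro ⟨hj, i, v, rfl⟩
          have h2 : σ (Jb.L i v 0) = i := mem_singleton.1 (h.elig _ hj)
          have h3 : i = i ∧ v = u i := hu i _ hj h2
          exact ⟨i, mem_univ i, by rw [h3.2]⟩
        · rintro ⟨i, _, rfl⟩
          exact ⟨hu0 i, i, u i, rfl⟩
      rw [h1, sum_image]
      · rfl
      · intro i _ i' _ hii
        exact (Jb.L.inj hii).1
    -- the penalties
    have hpair : ∀ p : Fin m × Fin m, p.1 ≠ p.2 → ∃ i : Fin m,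
        (Jb.P i (u i) (wd p.1 p.2 (u p.1) (u p.2)) : Jb m A (nw m A) X) ∈ T ∧
          g p.1 (u p.1) * g p.2 (u p.2) ≤ pen g i (u i) (wd p.1 p.2 (u p.1) (u p.2)) := by
      rintro ⟨s, t⟩ hst
      simp only at hst ⊢
      obtain ⟨k, hk⟩ : ∃ k, k = wd s t (u s) (u t) := ⟨_, rfl⟩
      have e1 : ws k = s := by rw [hk, ws_wd]
      have e2 : wt k = t := by rw [hk, wt_wd]
      have e3 : ((u s : Fin A) : ℕ) + A = u t + we k := by rw [hk]; exact we_wd s t (u s) (u t)
      rw [← hk]
      have hne : wt k ≠ ws k := by rw [e1, e2]; exact fun h => hst h.symm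
      rcases test (hfull s) (hu s) k with h1 | ⟨x, hx, hxs, hxr⟩
      · refine ⟨s, h1, ?_⟩
        unfold pen
        rw [if_pos e1.symm, if_neg fun h => hne h.symm, e2]
        refine le_trans (le_of_eq ?_) (single_le_sum (f := fun y : Fin A =>
          if ((u s : Fin A) : ℕ) + A = y + we k then g s (u s) * g t y else 0) (fun _ _ => Nat.zero_le _) (mem_univ (u t)))
        rw [if_pos e3]
      · rcases test (hfull t) (hu t) k with h2 | ⟨y, hy, hys, hyr⟩
        · refine ⟨t, h2, ?_⟩
          unfold pen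
          rw [if_neg (by rw [e1]; exact fun h => hst h.symm), if_pos e2.symm, e1]
          refine le_trans (le_of_eq ?_) (single_le_sum (f := fun x : Fin A =>
            if (x : ℕ) + A = (u t : Fin A) + we k then g s x * g t (u t) else 0) (fun _ _ => Nat.zero_le _) (mem_univ (u s)))
          rw [if_pos e3]
        · exfalso
          have h3 : x = u s := by
            rw [← e1] at hxr
            have := relZ_eq_iff_s.1 hxr
            rw [e1] at this
            exact this
          have h4 : (y : ℕ) + A = u t + we k := by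
            rw [← e2] at hyr
            have := (relZ_eq_iff_t hne).1 hyr
            rw [e2] at this
            exact this
          have h5 : x = y := by
            rw [h3]
            exact Fin.ext (by omega)
          rw [h5] at hxs
          exact hst (hxs.symm.trans hys)
    have : Nonempty (Fin m) := ⟨i0⟩
    choose! φ hφ1 hφ2 using hpair
    have hP : (∑ p ∈ univ.filter (fun p : Fin m × Fin m => p.1 ≠ p.2),
        (g p.1 (u p.1) : ℤ) * (g p.2 (u p.2) : ℤ)) ≤ ∑ j ∈ T.filter (fun j => ¬ isL0 j), -bon g j := by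
      have hinj : Set.InjOn (fun p : Fin m × Fin m =>
          (Jb.P (φ p) (u (φ p)) (wd p.1 p.2 (u p.1) (u p.2)) : Jb m A (nw m A) X))
          (univ.filter (fun p : Fin m × Fin m => p.1 ≠ p.2) : Finset (Fin m × Fin m)) := by
        intro p _ q _ hpq
        have h1 : wd p.1 p.2 (u p.1) (u p.2) = wd q.1 q.2 (u q.1) (u q.2) := (Jb.P.inj hpq).2.2
        refine Prod.ext ?_ ?_
        · rw [← ws_wd p.1 p.2 (u p.1) (u p.2), h1, ws_wd]
        · rw [← wt_wd p.1 p.2 (u p.1) (u p.2), h1, wt_wd]
      calc ∑ p ∈ univ.filter (fun p : Fin m × Fin m => p.1 ≠ p.2), (g p.1 (u p.1) : ℤ) * (g p.2 (u p.2) : ℤ)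
          ≤ ∑ p ∈ univ.filter (fun p : Fin m × Fin m => p.1 ≠ p.2),
              -bon g (Jb.P (φ p) (u (φ p)) (wd p.1 p.2 (u p.1) (u p.2)) : Jb m A (nw m A) X) := by
            refine sum_le_sum fun p hp => ?_
            have h1 := hφ2 p (mem_filter.1 hp).2
            unfold bon
            simp only [neg_neg]
            exact_mod_cast h1
        _ = ∑ j ∈ (univ.filter (fun p : Fin m × Fin m => p.1 ≠ p.2)).image (fun p : Fin m × Fin m =>
              (Jb.P (φ p) (u (φ p)) (wd p.1 p.2 (u p.1) (u p.2)) : Jb m A (nw m A) X)), -bon g j :=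
            (sum_image (f := fun j => -bon g j) hinj).symm
        _ ≤ ∑ j ∈ T.filter (fun j => ¬ isL0 j), -bon g j := by
            refine sum_le_sum_of_subset_of_nonneg ?_ ?_
            · intro j hj
              rw [mem_image] at hj
              obtain ⟨p, hp, rfl⟩ := hj
              refine mem_filter.2 ⟨hφ1 p (mem_filter.1 hp).2, ?_⟩
              rintro ⟨i, v, h2⟩
              cases h2
            · intro j hj _
              have := bon_le_zero g (mem_filter.1 hj).2
              omega
    rw [sum_offdiag (fun i => (g i (u i) : ℤ)), sum_neg_distrib] at hP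
    rw [hsplit, hL, sum_sub_distrib, ← mul_sum]
    nlinarith [sq_nonneg ((∑ i, (g i (u i) : ℤ)) - 1)]
  · push Not at hfull
    obtain ⟨i, hi⟩ := hfull
    have hlen := len_lt hA h hi
    have hlen' : (Λ : ℤ) * ((∑ j ∈ T, (due j - rel j) : ℕ) : ℤ) + Λ ≤ Λ * (m * en m A : ℕ) := by
      have h1 := Nat.mul_le_mul_left Λ hlen
      rw [Nat.mul_add, Nat.mul_one] at h1
      exact_mod_cast h1
    have h1 : ∑ j ∈ T.filter isL0, bon g j ≤ m * A := by
      have h2 : ∑ j ∈ T.filter isL0, bon g j ≤ ∑ _j ∈ T.filter isL0, (1 : ℤ) :=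
        sum_le_sum fun j _ => bon_le_one g j
      have h3 : (T.filter isL0).card ≤ m * A := by
        have h4 : T.filter isL0 ⊆ univ.image (fun p : Fin m × Fin A => (Jb.L p.1 p.2 0 : Jb m A (nw m A) X)) := by
          intro j hj
          obtain ⟨i, u, rfl⟩ := (mem_filter.1 hj).2
          exact mem_image.2 ⟨(i, u), mem_univ _, rfl⟩
        refine (card_le_card h4).trans (card_image_le.trans ?_)
        rw [card_univ, Fintype.card_prod, Fintype.card_fin, Fintype.card_fin]
      rw [sum_const, nsmul_eq_mul, mul_one] at h2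
      refine h2.trans ?_
      exact_mod_cast h3
    have h2 : ∑ j ∈ T.filter (fun j => ¬ isL0 j), bon g j ≤ 0 :=
      sum_nonpos fun j hj => bon_le_zero g (mem_filter.1 hj).2
    have h3 : ((m * A : ℕ) : ℤ) ≤ Λ := by exact_mod_cast hΛ
    push_cast at h3
    rw [hsplit]
    linarith

end Pool.Agent.Lib.MP_f25cb6_lc.Lp
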